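import Pool.Agent.Work.MP_8d2b2d_co.CY.Main

/-!
# Pate's inequality for `m ≤ 7`
-/

set_option autoImplicit false
set_option linter.unusedSectionVars false
set_option linter.deprecated false

namespace Pool.Agent.Work.MP_8d2b2d_co.CY

open Complex MeasureTheory
open scoped ComplexOrder
open Pool.Agent.Work.MP_8d2b2d_co Pool.Agent.Work.MP_8d2b2d_co.PL

variable {ι : Type} [Fintype ι] [DecidableEq ι]

/-- abstract limit argument -/
lemma limit_hankel {g : ℕ → ℝ} {K : ℝ} (hK : 0 ≤ K) {ε₀ : ℝ} (hε₀ : 0 < ε₀)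
    (h : ∀ ε, 0 < ε → ε ≤ ε₀ → ∃ J : ℕ → ℝ, (∀ k, 0 ≤ J k) ∧
      (∀ k, |g k - J k| ≤ (k * (ε * K)) * J k) ∧
      ∀ (s N : ℕ) (c : ℕ → ℝ),
        0 ≤ ∑ i ∈ Finset.range N, ∑ j ∈ Finset.range N, c i * c j * J (i + j + s))
    (s N : ℕ) (c : ℕ → ℝ) :
    0 ≤ ∑ i ∈ Finset.range N, ∑ j ∈ Finset.range N, c i * c j * g (i + j + s) := by
  set B : ℝ := ∑ i ∈ Finset.range N, ∑ j ∈ Finset.range N, |c i * c j| * |g (i + j + s)| with hB
  have hB0 : 0 ≤ B := Finset.sum_nonneg fun i _ => Finset.sum_nonneg fun j _ => by positivity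
  by_contra hcon
  push Not at hcon
  set T : ℝ := ∑ i ∈ Finset.range N, ∑ j ∈ Finset.range N, c i * c j * g (i + j + s) with hT
  -- choose ε
  set L : ℝ := (2 * N + s : ℕ) * K + 1 with hL
  have hL0 : 0 < L := by
    have : (0 : ℝ) ≤ ((2 * N + s : ℕ) : ℝ) := Nat.cast_nonneg _
    positivity
  set δ : ℝ := min (1 / 2) (-T / (4 * (B + 1))) with hδ
  have hδ0 : 0 < δ := lt_min (by norm_num) (div_pos (by linarith) (by linarith))
  set ε : ℝ := min ε₀ (δ / L) with hε
  have hε0 : 0 < ε := lt_min hε₀ (div_pos hδ0 hL0)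
  obtain ⟨J, hJ0, hJ1, hJ2⟩ := h ε hε0 (min_le_left _ _)
  have hk : ∀ k, k ≤ 2 * N + s → |g k - J k| ≤ 2 * δ * |g k| := by
    intro k hk
    have h1 : (k : ℝ) * (ε * K) ≤ δ := by
      have e1 : (k : ℝ) ≤ ((2 * N + s : ℕ) : ℝ) := by exact_mod_cast hk
      have e2 : ε * L ≤ δ := by
        have := mul_le_mul_of_nonneg_right (min_le_right ε₀ (δ / L)) hL0.le
        rwa [div_mul_cancel₀ _ hL0.ne'] at this
      calc (k : ℝ) * (ε * K) ≤ ((2 * N + s : ℕ) : ℝ) * (ε * K) :=
            mul_le_mul_of_nonneg_right e1 (by positivity)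
        _ = ε * (((2 * N + s : ℕ) : ℝ) * K) := by ring
        _ ≤ ε * L := mul_le_mul_of_nonneg_left (by rw [hL]; linarith) hε0.le
        _ ≤ δ := e2
    have h2 : |g k - J k| ≤ δ * J k := (hJ1 k).trans (mul_le_mul_of_nonneg_right h1 (hJ0 k))
    have h3 : δ ≤ 1 / 2 := min_le_left _ _
    have h4 : J k ≤ 2 * |g k| := by
      have e1 := (abs_le.1 h2).1
      have e2 : δ * J k ≤ 1 / 2 * J k := mul_le_mul_of_nonneg_right h3 (hJ0 k)
      have e3 := le_abs_self (g k)
      linarith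
    calc |g k - J k| ≤ δ * J k := h2
      _ ≤ δ * (2 * |g k|) := mul_le_mul_of_nonneg_left h4 hδ0.le
      _ = _ := by ring
  have h5 : |T - ∑ i ∈ Finset.range N, ∑ j ∈ Finset.range N, c i * c j * J (i + j + s)| ≤
      2 * δ * B := by
    rw [hT, ← Finset.sum_sub_distrib]
    refine (Finset.abs_sum_le_sum_abs _ _).trans ?_
    rw [hB, Finset.mul_sum]
    refine Finset.sum_le_sum fun i hi => ?_
    rw [← Finset.sum_sub_distrib]
    refine (Finset.abs_sum_le_sum_abs _ _).trans ?_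
    rw [Finset.mul_sum]
    refine Finset.sum_le_sum fun j hj => ?_
    rw [← mul_sub, abs_mul]
    have hi' := Finset.mem_range.1 hi
    have hj' := Finset.mem_range.1 hj
    calc |c i * c j| * |g (i + j + s) - J (i + j + s)| ≤
        |c i * c j| * (2 * δ * |g (i + j + s)|) :=
          mul_le_mul_of_nonneg_left (hk _ (by omega)) (abs_nonneg _)
      _ = _ := by ring
  have h6 := hJ2 s N c
  have h7 := (abs_le.1 h5).1
  have h8 : 2 * δ * B ≤ -T / 2 := by
    have e1 : δ ≤ -T / (4 * (B + 1)) := min_le_right _ _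
    rw [le_div_iff₀ (by linarith)] at e1
    nlinarith
  linarith

/-- **Hankel positivity** for positive definite matrices of order at most seven -/
theorem hankel_pd {M : Matrix ι ι ℂ} (hM : M.PosDef) (hcard : Fintype.card ι ≤ 7)
    (s N : ℕ) (c : ℕ → ℝ) :
    0 ≤ ∑ i ∈ Finset.range N, ∑ j ∈ Finset.range N, c i * c j * (cf M (i + j + s)).re := by
  have hG := GG_pos
  have hG2 : GG ≤ Real.pi := by
    have hHH : 0 ≤ HH (Real.pi / 2) := HH_nonneg (by positivity) (by linarith [Real.pi_pos])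
    unfold GG
    linarith
  have hpi := Real.pi_pos
  have hs0 : 0 < Real.sin (GG / 4) := Real.sin_pos_of_pos_of_lt_pi (by linarith) (by linarith)
  have h := limit_hankel (g := fun k => Real.pi ^ Fintype.card ι * (cf M k).re)
    (K := 7 * Real.pi / Real.sin (GG / 4)) (by positivity)
    (ε₀ := min (1 / 2) (GG / 400)) (lt_min (by norm_num) (by linarith)) (fun ε hε hε' => by
      have e1 : ε ≤ 1 / 2 := hε'.trans (min_le_left _ _)
      have e2 : ε ≤ GG / 400 := hε'.trans (min_le_right _ _)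
      refine ⟨IK M ε, IK_nonneg hM hε e1 e2 hcard, fun k => ?_,
        fun s N c => IK_hankel hM hε e1 e2 hcard s N c⟩
      refine (approx hM hε e1 e2 hcard k).trans (le_of_eq ?_)
      ring) s N c
  have h2 : ∑ i ∈ Finset.range N, ∑ j ∈ Finset.range N, c i * c j *
      (Real.pi ^ Fintype.card ι * (cf M (i + j + s)).re) =
      Real.pi ^ Fintype.card ι * ∑ i ∈ Finset.range N, ∑ j ∈ Finset.range N,
        c i * c j * (cf M (i + j + s)).re := by
    rw [Finset.mul_sum]
    refine Finset.sum_congr rfl fun i _ => ?_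
    rw [Finset.mul_sum]
    refine Finset.sum_congr rfl fun j _ => ?_
    ring
  rw [h2] at h
  exact nonneg_of_mul_nonneg_right h (by positivity)

/-- the normalised sequence -/
noncomputable def gk {m : ℕ} (M : Matrix (Fin m) (Fin m) ℂ) (k : ℕ) : ℝ :=
  (JM k M).permanent.re / (k.factorial : ℝ) ^ m

lemma cf_re {m : ℕ} (M : Matrix (Fin m) (Fin m) ℂ) (k : ℕ) : (cf M k).re = gk M k := by
  have h := congrArg Complex.re (perm_eq_cf M k)
  have h1 : ((k.factorial : ℂ)) ^ m = (((k.factorial : ℝ) ^ m : ℝ) : ℂ) := by push_cast; rfl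
  rw [h1, re_ofReal_mul] at h
  rw [gk, h]
  have : (k.factorial : ℝ) ^ m ≠ 0 := pow_ne_zero _ (by exact_mod_cast k.factorial_ne_zero)
  field_simp

/-- **Hankel positivity** for positive semidefinite matrices of order at most seven -/
theorem hankel_psd {m : ℕ} (hm : m ≤ 7) {M : Matrix (Fin m) (Fin m) ℂ} (hM : M.PosSemidef)
    (s N : ℕ) (c : ℕ → ℝ) :
    0 ≤ ∑ i ∈ Finset.range N, ∑ j ∈ Finset.range N, c i * c j * gk M (i + j + s) := by
  set f : ℝ → ℝ := fun t => ∑ i ∈ Finset.range N, ∑ j ∈ Finset.range N,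
    c i * c j * gk (M + (t : ℂ) • (1 : Matrix (Fin m) (Fin m) ℂ)) (i + j + s) with hf
  have hc : Continuous f := by
    refine continuous_finsetSum _ fun i _ => continuous_finsetSum _ fun j _ => ?_
    refine continuous_const.mul ?_
    unfold gk
    refine Continuous.div_const ?_ _
    refine Complex.continuous_re.comp (continuous_permanent.comp ((continuous_JM _).comp ?_))
    exact continuous_const.add (Complex.continuous_ofReal.smul continuous_const)
  have h0 : f 0 = ∑ i ∈ Finset.range N, ∑ j ∈ Finset.range N, c i * c j * gk M (i + j + s) := by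
    simp only [hf, ofReal_zero, zero_smul, add_zero]
  rw [← h0]
  have h1 : ∀ t : ℝ, 0 < t → 0 ≤ f t := by
    intro t ht
    have h2 := hankel_pd (posDef_add hM ht) (by simpa using hm) s N c
    simp only [cf_re] at h2
    exact h2
  have h3 : Filter.Tendsto f (nhdsWithin 0 (Set.Ioi 0)) (nhds (f 0)) :=
    (hc.tendsto 0).mono_left nhdsWithin_le_nhds
  refine ge_of_tendsto h3 ?_
  filter_upwards [self_mem_nhdsWithin] with t ht
  exact h1 t ht

lemma gk_zero {m : ℕ} (M : Matrix (Fin m) (Fin m) ℂ) : gk M 0 = 1 := by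
  unfold gk
  have : (JM 0 M).permanent = 1 := by
    unfold Matrix.permanent
    simp
  rw [this]
  simp

lemma gk_one {m : ℕ} {M : Matrix (Fin m) (Fin m) ℂ} (hM : M.PosSemidef) :
    gk M 1 = M.permanent.re := by
  obtain ⟨B, hB⟩ := exists_conjTranspose_mul hM
  unfold gk
  rw [hB, kron_eq, perm_eq, pow_one]
  simp

/-- log-convexity -/
lemma gk_log_convex {m : ℕ} (hm : m ≤ 7) {M : Matrix (Fin m) (Fin m) ℂ} (hM : M.PosSemidef)
    (k : ℕ) : gk M (k + 1) ^ 2 ≤ gk M k * gk M (k + 2) := by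
  have h : ∀ a b : ℝ, 0 ≤ a ^ 2 * gk M k + 2 * a * b * gk M (k + 1) + b ^ 2 * gk M (k + 2) := by
    intro a b
    have := hankel_psd hm hM k 2 (fun i => if i = 0 then a else b)
    simp only [Finset.sum_range_succ, Finset.range_zero, Finset.sum_empty, zero_add, if_true,
      one_ne_zero, if_false, add_zero] at this
    have e1 : 1 + k = k + 1 := by ring
    have e2 : 1 + 1 + k = k + 2 := by ring
    rw [e1, e2] at this
    linarith
  have h1 := h (gk M (k + 2)) (-(gk M (k + 1)))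
  have h2 := h 0 1
  have h3 := h 1 0
  by_cases h4 : gk M (k + 2) = 0
  · have h5 := h (-(gk M (k + 1))) (gk M k + 1)
    rw [h4] at h5 ⊢
    simp only [mul_zero] at h5 ⊢
    have h6 := h (gk M k + 1) (-(gk M (k + 1)))
    by_contra hcon
    push Not at hcon
    have h7 := h 1 (-(gk M k + 1) / gk M (k + 1))
    rw [h4] at h7
    have h8 : gk M (k + 1) ≠ 0 := by
      intro h9
      rw [h9] at hcon
      norm_num at hcon
    have h9 : 2 * 1 * (-(gk M k + 1) / gk M (k + 1)) * gk M (k + 1) = -2 * (gk M k + 1) := by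
      field_simp
    rw [h9] at h7
    nlinarith
  · have h5 : 0 < gk M (k + 2) := lt_of_le_of_ne (by linarith) (Ne.symm h4)
    have h6 : 0 ≤ gk M (k + 2) * (gk M k * gk M (k + 2) - gk M (k + 1) ^ 2) := by nlinarith
    have h7 := nonneg_of_mul_nonneg_right h6 h5
    linarith

lemma gk_nonneg {m : ℕ} (hm : m ≤ 7) {M : Matrix (Fin m) (Fin m) ℂ} (hM : M.PosSemidef)
    (k : ℕ) : 0 ≤ gk M k := by
  have := hankel_psd hm hM k 1 (fun _ => 1)
  simpa using this

lemma pow_le_gk {m : ℕ} (hm : m ≤ 7) {M : Matrix (Fin m) (Fin m) ℂ} (hM : M.PosSemidef)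
    (k : ℕ) : gk M 1 ^ k ≤ gk M k := by
  have h0 := gk_nonneg hm hM
  have h1 : ∀ k, gk M 1 * gk M k ≤ gk M (k + 1) := by
    intro k
    induction k with
    | zero => rw [gk_zero, mul_one]
    | succ k ih =>
      have h2 := gk_log_convex hm hM k
      rcases (h0 k).eq_or_lt with h3 | h3
      · rw [← h3] at h2
        have h4 : gk M (k + 1) = 0 := by nlinarith [sq_nonneg (gk M (k + 1))]
        rw [h4, mul_zero]
        exact h0 _
      · have h4 : gk M k * (gk M 1 * gk M (k + 1)) ≤ gk M k * gk M (k + 1 + 1) := by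
          calc gk M k * (gk M 1 * gk M (k + 1)) = (gk M 1 * gk M k) * gk M (k + 1) := by ring
            _ ≤ gk M (k + 1) * gk M (k + 1) := mul_le_mul_of_nonneg_right ih (h0 _)
            _ = gk M (k + 1) ^ 2 := by ring
            _ ≤ _ := h2
        exact le_of_mul_le_mul_left h4 h3
  induction k with
  | zero => rw [pow_zero, gk_zero]
  | succ k ih =>
    calc gk M 1 ^ (k + 1) = gk M 1 * gk M 1 ^ k := by ring
      _ ≤ gk M 1 * gk M k := mul_le_mul_of_nonneg_left ih (h0 1)
      _ ≤ _ := h1 k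

/-- Pate's inequality for `m ≤ 7` -/
theorem pate_seven {m : ℕ} (hm : m ≤ 7) {M : Matrix (Fin m) (Fin m) ℂ} (hM : M.PosSemidef)
    (k : ℕ) : (k.factorial : ℝ) ^ m * M.permanent.re ^ k ≤ (JM k M).permanent.re := by
  have h := pow_le_gk hm hM k
  rw [gk_one hM, gk] at h
  have h2 : (0 : ℝ) < (k.factorial : ℝ) ^ m := pow_pos (by exact_mod_cast k.factorial_pos) _
  rw [le_div_iff₀ h2] at h
  linarith

end Pool.Agent.Work.MP_8d2b2d_co.CY
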