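import Pool.Agent.Work.MP_8d2b2d_co.CY.Repl

/-!
# The integral identity for `f(x_i)`
-/

set_option autoImplicit false
set_option linter.unusedSectionVars false
set_option linter.deprecated false

namespace Pool.Agent.Work.MP_8d2b2d_co.CY

open MeasureTheory Complex MvPolynomial
open scoped ComplexOrder

variable {ι : Type} [Fintype ι] [DecidableEq ι]

/-- smooth version of `z ↦ z^{-(k+1)}` -/
noncomputable def kap (δ : ℝ) (k : ℕ) (z : ℂ) : ℂ := (z ^ (k + 1))⁻¹ * gg (((δ⁻¹ : ℝ) : ℂ) * z)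

lemma contDiff_kap {δ : ℝ} (hδ : 0 < δ) (k : ℕ) : ContDiff ℝ (1 : ℕ∞) (kap δ k) := by
  unfold kap
  refine contDiff_inv_pow_mul (χ := fun z => gg (((δ⁻¹ : ℝ) : ℂ) * z)) (δ := δ / 2) ?_ (by positivity) ?_ (k + 1)
  · exact contDiff_gg.comp (contDiff_const.mul contDiff_id)
  · intro z hz
    by_contra hcon
    have h := gg_ne_zero hcon
    rw [norm_mul, norm_real, Real.norm_of_nonneg (by positivity)] at h
    have : δ⁻¹ * ‖z‖ < 1 / 2 := by
      rw [inv_mul_lt_iff₀ hδ]
      linarith
    linarith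

lemma kap_eq {δ : ℝ} (hδ : 0 < δ) (k : ℕ) {z : ℂ} (hz : δ ≤ ‖z‖) : kap δ k z = (z ^ (k + 1))⁻¹ := by
  unfold kap
  have : gg (((δ⁻¹ : ℝ) : ℂ) * z) = 1 := by
    rw [gg, rho_one, ofReal_one]
    rw [normSq_eq_norm_sq, norm_mul, norm_real, Real.norm_of_nonneg (by positivity)]
    have h1 : 1 ≤ δ⁻¹ * ‖z‖ := by
      rw [le_inv_mul_iff₀ hδ]
      linarith
    nlinarith
  rw [this, mul_one]

/-- the smooth weight -/
noncomputable def WW (M : Matrix ι ι ℂ) (δ : ℝ) (k : ℕ) (y : ι → ℂ) : ℂ :=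
  ∏ i, ((∑ l, M i l * y l) ^ k * kap δ k (y i))

/-- the weight `∏ (My)_i^k / y_i^{k+1}` -/
noncomputable def W0 (M : Matrix ι ι ℂ) (k : ℕ) (y : ι → ℂ) : ℂ :=
  ∏ i, ((∑ l, M i l * y l) ^ k * (y i ^ (k + 1))⁻¹)

lemma contDiff_WW (M : Matrix ι ι ℂ) {δ : ℝ} (hδ : 0 < δ) (k : ℕ) : ContDiff ℝ 1 (WW M δ k) := by
  unfold WW
  have h1 : ∀ l, ContDiff ℝ 1 (fun y : ι → ℂ => y l) := fun l => contDiff_apply ℝ ℂ l
  refine contDiff_prod fun i _ => ContDiff.mul ?_ ?_
  · exact (ContDiff.sum fun l _ => contDiff_const.mul (h1 l)).pow k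
  · have := (contDiff_kap hδ k).comp (h1 i)
    exact_mod_cast this

lemma WW_eq (M : Matrix ι ι ℂ) {δ : ℝ} (hδ : 0 < δ) (k : ℕ) {y : ι → ℂ} (hy : ∀ i, δ ≤ ‖y i‖) :
    WW M δ k y = W0 M k y := by
  unfold WW W0
  refine Finset.prod_congr rfl fun i _ => ?_
  rw [kap_eq hδ k (hy i)]

lemma dbar_WW (M : Matrix ι ι ℂ) {δ : ℝ} (hδ : 0 < δ) (k : ℕ) {y : ι → ℂ}
    (hy : ∀ i, δ < ‖y i‖) (j : ι) : dbar j (WW M δ k) y = 0 := by
  have h1 : WW M δ k =ᶠ[nhds y] W0 M k := by
    have : ∀ᶠ z : ι → ℂ in nhds y, ∀ i, δ < ‖z i‖ := by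
      rw [Filter.eventually_all]
      intro i
      exact (isOpen_lt continuous_const ((continuous_apply i).norm)).mem_nhds (hy i)
    filter_upwards [this] with z hz
    exact WW_eq M hδ k fun i => (hz i).le
  rw [dbar_congr j h1]
  apply dbar_eq_zero
  unfold W0
  have hc : ∀ l, DifferentiableAt ℂ (fun y : ι → ℂ => y l) y := fun l =>
    (ContinuousLinearMap.proj (R := ℂ) (φ := fun _ : ι => ℂ) l).differentiableAt
  have h2 : ∀ i, DifferentiableAt ℂ (fun y : ι → ℂ => (∑ l, M i l * y l) ^ k * (y i ^ (k + 1))⁻¹) y := by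
    intro i
    refine DifferentiableAt.mul ?_ ?_
    · refine DifferentiableAt.pow ?_ k
      exact DifferentiableAt.fun_sum fun l _ => (hc l).const_mul _
    · refine DifferentiableAt.fun_inv ((hc i).pow (k + 1)) ?_
      refine pow_ne_zero _ fun h => ?_
      have := hy i
      rw [h, norm_zero] at this
      linarith
  have h3 := HasFDerivAt.finsetProd (u := Finset.univ) (x := y) fun i _ => (h2 i).hasFDerivAt
  exact h3.differentiableAt

/-- mixed cut-offs -/
noncomputable def FS (M : Matrix ι ι ℂ) (f : ℂ → ℂ) (S : Finset ι) (i : ι) (y : ι → ℂ) : ℂ :=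
  if i ∈ S then f (xx M i y) else gg (y i)

lemma contDiff_FS {M : Matrix ι ι ℂ} {f : ℂ → ℂ} (hf : Cut f) (S : Finset ι) (i : ι) :
    ContDiff ℝ 2 (FS M f S i) := by
  unfold FS
  by_cases h : i ∈ S
  · simp only [if_pos h]
    exact hf.smooth.comp (contDiff_xx M i)
  · simp only [if_neg h]
    have h1 : ContDiff ℝ 2 gg := contDiff_gg (n := 2)
    exact h1.comp (contDiff_apply ℝ ℂ i)

/-- properties of a nonzero row -/
lemma row_FS {M : Matrix ι ι ℂ} {f : ℂ → ℂ} (hf : Cut f) (S : Finset ι) {i : ι} {y : ι → ℂ}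
    (h : ∃ k, dbar k (FS M f S i) y ≠ 0) :
    (xx M i y).re ≤ 2 + CM M * ‖y‖ ∧ (1 / 2 ≤ ‖xx M i y‖ ∨ 1 / 2 ≤ ‖y i‖) := by
  obtain ⟨k, hk⟩ := h
  have hC := mul_nonneg (CM_nonneg M) (norm_nonneg y)
  by_cases hi : i ∈ S
  · have e : FS M f S i = fun y => f (xx M i y) := by
      funext y; rw [FS, if_pos hi]
    rw [e] at hk
    have := hf.of_row hk
    exact ⟨by linarith, Or.inl this.1⟩
  · have e : FS M f S i = fun y => gg (y i) := by
      funext y; rw [FS, if_neg hi]
    rw [e] at hk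
    have := gg_row hk
    refine ⟨?_, Or.inr this.1⟩
    have h2 := (re_le_norm _).trans (norm_xx M i y)
    have h3 : ‖y i‖ * (CM M * ‖y‖) ≤ 1 * (CM M * ‖y‖) := mul_le_mul_of_nonneg_right this.2 hC
    linarith

lemma lower_y {M : Matrix ι ι ℂ} {i : ι} {y : ι → ℂ} {R : ℝ} (hR : ‖y‖ ≤ R)
    (h : 1 / 2 ≤ ‖xx M i y‖ ∨ 1 / 2 ≤ ‖y i‖) : 1 / (4 * (CM M * R + 1)) < ‖y i‖ := by
  have hC := CM_nonneg M
  have hR0 : 0 ≤ R := (norm_nonneg _).trans hR
  have hp : 0 < CM M * R + 1 := by positivity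
  rw [div_lt_iff₀ (by positivity)]
  rcases h with h | h
  · have h1 := h.trans (norm_xx M i y)
    have h2 : ‖y i‖ * (CM M * ‖y‖) ≤ ‖y i‖ * (CM M * R) := by gcongr
    nlinarith [norm_nonneg (y i)]
  · have : (1 : ℝ) / 2 * 1 ≤ ‖y i‖ * (CM M * R + 1) := by
      apply mul_le_mul h _ zero_le_one (norm_nonneg _)
      nlinarith [mul_nonneg hC hR0]
    nlinarith

/-- the threshold -/
noncomputable def dl (M : Matrix ι ι ℂ) (R : ℝ) : ℝ := 1 / (4 * (CM M * R + 1))

lemma dl_pos (M : Matrix ι ι ℂ) {R : ℝ} (hR : 0 < R) : 0 < dl M R := by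
  have := CM_nonneg M
  unfold dl
  positivity

/-- one replacement -/
lemma replace {M : Matrix ι ι ℂ} {f : ℂ → ℂ} (hf : Cut f) {R : ℝ} (hR0 : 0 < R)
    (hR : ∀ y : ι → ℂ, (∀ i, (xx M i y).re ≤ 2 + CM M * ‖y‖) → ‖y‖ ≤ R) (k : ℕ)
    (S : Finset ι) {i0 : ι} (hi0 : i0 ∉ S) :
    ∫ y, WW M (dl M R) k y * (JJ (FS M f (insert i0 S)) y).det =
      ∫ y, WW M (dl M R) k y * (JJ (FS M f S) y).det := by
  set F : ι → (ι → ℂ) → ℂ :=
    Function.update (FS M f S) i0 (fun y => f (xx M i0 y) - gg (y i0)) with hF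
  have hFc : ∀ i, ContDiff ℝ 2 (F i) := by
    intro i
    by_cases h : i = i0
    · subst h
      rw [hF, Function.update_self]
      have h1 : ContDiff ℝ 2 gg := contDiff_gg (n := 2)
      exact (hf.smooth.comp (contDiff_xx M i)).sub (h1.comp (contDiff_apply ℝ ℂ i))
    · rw [hF, Function.update_of_ne h]
      exact contDiff_FS hf S i
  have hδ := dl_pos M hR0
  have key : ∀ y, F i0 y ≠ 0 → (∀ i, i ≠ i0 → ∃ k, dbar k (F i) y ≠ 0) →
      ‖y‖ ≤ R ∧ ∀ j, dbar j (WW M (dl M R) k) y = 0 := by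
    intro y h0 h1
    have hC := mul_nonneg (CM_nonneg M) (norm_nonneg y)
    have h2 : ∀ i, (xx M i y).re ≤ 2 + CM M * ‖y‖ ∧ (1 / 2 ≤ ‖xx M i y‖ ∨ 1 / 2 ≤ ‖y i‖) := by
      intro i
      by_cases h : i = i0
      · subst h
        rw [hF, Function.update_self] at h0
        constructor
        · by_cases h3 : f (xx M i y) = 1
          · have h4 : gg (y i) ≠ 1 := fun h5 => h0 (by rw [h3, h5, sub_self])
            have h5 := gg_ne_one h4
            have h6 := (re_le_norm _).trans (norm_xx M i y)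
            have h7 : ‖y i‖ * (CM M * ‖y‖) ≤ 1 * (CM M * ‖y‖) := mul_le_mul_of_nonneg_right h5 hC
            linarith
          · have := hf.one _ h3
            linarith
        · by_cases h3 : f (xx M i y) = 0
          · right
            apply gg_ne_zero
            intro h4
            exact h0 (by rw [h3, h4, sub_self])
          · left
            exact hf.zero _ h3
      · have h3 := h1 i h
        rw [hF] at h3
        simp only [Function.update_of_ne h] at h3
        exact row_FS hf S h3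
    have h3 : ‖y‖ ≤ R := hR y fun i => (h2 i).1
    exact ⟨h3, dbar_WW M hδ k fun i => lower_y h3 (h2 i).2⟩
  have hst := stokes hFc i0 (contDiff_WW M hδ k) key
  -- linearity of the determinant
  have hdet : ∀ y, (JJ F y).det = (JJ (FS M f (insert i0 S)) y).det - (JJ (FS M f S) y).det := by
    intro y
    have e1 : JJ F y = (JJ (FS M f S) y).updateRow i0
        ((JJ (FS M f (insert i0 S)) y) i0 + (-1 : ℂ) • (JJ (FS M f S) y) i0) := by
      ext i l
      by_cases h : i = i0
      · subst h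
        rw [Matrix.updateRow_self, JJ, Matrix.of_apply, hF, Function.update_self]
        have h1 : ContDiff ℝ 2 gg := contDiff_gg (n := 2)
        rw [dbar_sub l (f := fun y => f (xx M i y)) (g := fun y => gg (y i))
          ((hf.smooth.comp (contDiff_xx M i)).differentiable (by norm_num) y)
          ((h1.comp (contDiff_apply ℝ ℂ i)).differentiable (by norm_num) y)]
        rw [Pi.add_apply, Pi.smul_apply, JJ, JJ, Matrix.of_apply, Matrix.of_apply]
        have e2 : FS M f (insert i S) i = fun y => f (xx M i y) := by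
          funext y; rw [FS, if_pos (Finset.mem_insert_self i S)]
        have e3 : FS M f S i = fun y => gg (y i) := by
          funext y; rw [FS, if_neg hi0]
        rw [e2, e3, smul_eq_mul]
        ring
      · rw [Matrix.updateRow_ne h, JJ, JJ, Matrix.of_apply, Matrix.of_apply, hF,
          Function.update_of_ne h]
    have e4 : (JJ (FS M f S) y).updateRow i0 ((JJ (FS M f (insert i0 S)) y) i0) =
        JJ (FS M f (insert i0 S)) y := by
      ext i l
      by_cases h : i = i0
      · subst h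
        rw [Matrix.updateRow_self]
      · rw [Matrix.updateRow_ne h, JJ, JJ, Matrix.of_apply, Matrix.of_apply]
        have : FS M f (insert i0 S) i = FS M f S i := by
          funext y
          rw [FS, FS]
          simp only [Finset.mem_insert, h, false_or]
        rw [this]
    rw [e1, Matrix.det_updateRow_add, Matrix.det_updateRow_smul, Matrix.updateRow_eq_self, e4]
    ring
  have hint : ∀ T : Finset ι, Integrable fun y => WW M (dl M R) k y * (JJ (FS M f T) y).det := by
    intro T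
    have hc : Continuous fun y => WW M (dl M R) k y * (JJ (FS M f T) y).det := by
      refine (contDiff_WW M hδ k).continuous.mul ?_
      refine Continuous.matrix_det ?_
      refine continuous_matrix fun i l => ?_
      exact (contDiff_dbar l (contDiff_FS hf T i)).continuous
    refine hc.integrable_of_hasCompactSupport ?_
    refine HasCompactSupport.intro (isCompact_closedBall (0 : ι → ℂ) R) fun y hy => ?_
    rw [mem_closedBall_zero_iff] at hy
    by_contra hne
    apply hy
    have hdne : (JJ (FS M f T) y).det ≠ 0 := fun h => hne (by rw [h, mul_zero])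
    apply hR
    intro i
    refine (row_FS hf T ?_).1
    by_contra hcon
    push Not at hcon
    apply hdne
    refine Matrix.det_eq_zero_of_row_eq_zero i fun l => ?_
    rw [JJ, Matrix.of_apply, hcon l]
  have h5 : ∫ y, WW M (dl M R) k y * (JJ F y).det =
      (∫ y, WW M (dl M R) k y * (JJ (FS M f (insert i0 S)) y).det) -
      ∫ y, WW M (dl M R) k y * (JJ (FS M f S) y).det := by
    rw [← integral_sub (hint _) (hint _)]
    refine integral_congr_ae (Filter.Eventually.of_forall fun y => ?_)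
    simp only
    rw [hdet y, mul_sub]
  rw [hst] at h5
  exact (sub_eq_zero.1 h5.symm)

lemma WW_det {M : Matrix ι ι ℂ} {f : ℂ → ℂ} (hf : Cut f) {R : ℝ} (hR0 : 0 < R)
    (hR : ∀ y : ι → ℂ, (∀ i, (xx M i y).re ≤ 2 + CM M * ‖y‖) → ‖y‖ ≤ R) (k : ℕ)
    (S : Finset ι) (y : ι → ℂ) :
    WW M (dl M R) k y * (JJ (FS M f S) y).det = W0 M k y * (JJ (FS M f S) y).det := by
  by_cases h : (JJ (FS M f S) y).det = 0
  · rw [h, mul_zero, mul_zero]
  have h2 : ∀ i, (xx M i y).re ≤ 2 + CM M * ‖y‖ ∧ (1 / 2 ≤ ‖xx M i y‖ ∨ 1 / 2 ≤ ‖y i‖) := by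
    intro i
    refine row_FS hf S ?_
    by_contra hcon
    push Not at hcon
    apply h
    refine Matrix.det_eq_zero_of_row_eq_zero i fun l => ?_
    rw [JJ, Matrix.of_apply, hcon l]
  have h3 : ‖y‖ ≤ R := hR y fun i => (h2 i).1
  rw [WW_eq M (dl_pos M hR0) k fun i => (lower_y h3 (h2 i).2).le]

/-- the integrand for `f(x_i)` is continuous with compact support -/
lemma integrand_nice {M : Matrix ι ι ℂ} (hM : M.PosDef) {f : ℂ → ℂ} (hf : Cut f) (k : ℕ) :
    Continuous (fun y => W0 M k y * (JJ (fun i y => f (xx M i y)) y).det) ∧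
    HasCompactSupport (fun y => W0 M k y * (JJ (fun i y => f (xx M i y)) y).det) := by
  obtain ⟨R, hR0, hR⟩ := exists_bound hM
  have e : (fun i y => f (xx M i y)) = FS M f Finset.univ := by
    funext i y
    rw [FS, if_pos (Finset.mem_univ i)]
  rw [e]
  have e2 : (fun y => W0 M k y * (JJ (FS M f Finset.univ) y).det) =
      fun y => WW M (dl M R) k y * (JJ (FS M f Finset.univ) y).det := by
    funext y
    exact (WW_det hf hR0 hR k _ y).symm
  rw [e2]
  constructor
  · refine (contDiff_WW M (dl_pos M hR0) k).continuous.mul ?_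
    refine Continuous.matrix_det ?_
    refine continuous_matrix fun i l => ?_
    exact (contDiff_dbar l (contDiff_FS hf _ i)).continuous
  · refine HasCompactSupport.intro (isCompact_closedBall (0 : ι → ℂ) R) fun y hy => ?_
    rw [mem_closedBall_zero_iff] at hy
    by_contra hne
    apply hy
    have hdne : (JJ (FS M f Finset.univ) y).det ≠ 0 := fun h => hne (by rw [h, mul_zero])
    apply hR
    intro i
    refine (row_FS hf Finset.univ ?_).1
    by_contra hcon
    push Not at hcon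
    apply hdne
    refine Matrix.det_eq_zero_of_row_eq_zero i fun l => ?_
    rw [JJ, Matrix.of_apply, hcon l]

/-- **the cycle identity** -/
theorem cycle {M : Matrix ι ι ℂ} (hM : M.PosDef) {f : ℂ → ℂ} (hf : Cut f) (k : ℕ) :
    ∫ y, W0 M k y * (JJ (fun i y => f (xx M i y)) y).det =
      (Real.pi : ℂ) ^ Fintype.card ι * cf M k := by
  obtain ⟨R, hR0, hR⟩ := exists_bound hM
  have e : (fun i y => f (xx M i y)) = FS M f Finset.univ := by
    funext i y
    rw [FS, if_pos (Finset.mem_univ i)]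
  have e0 : (fun i (y : ι → ℂ) => gg (y i)) = FS M f ∅ := by
    funext i y
    rw [FS, if_neg (Finset.notMem_empty i)]
  have h1 : ∀ S : Finset ι, ∫ y, WW M (dl M R) k y * (JJ (FS M f S) y).det =
      ∫ y, WW M (dl M R) k y * (JJ (FS M f ∅) y).det := by
    intro S
    induction S using Finset.induction_on with
    | empty => rfl
    | insert i0 S hi0 ih => rw [replace hf hR0 hR k S hi0, ih]
  rw [← integral_gg, e, e0]
  have h2 := h1 Finset.univ
  simp only [WW_det hf hR0 hR] at h2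
  exact h2

end Pool.Agent.Work.MP_8d2b2d_co.CY
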