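import Pool.Agent.Work.MP_8d2b2d_co.CY.Sinc
import Pool.Agent.Work.MP_8d2b2d_co.CY.Repl2

/-!
# The cut-offs `f_ε(x) = Φ_ε(v(x))`
-/

set_option autoImplicit false
set_option linter.unusedSectionVars false
set_option linter.deprecated false

namespace Pool.Agent.Work.MP_8d2b2d_co.CY

open Complex

/-- the step function -/
noncomputable def ph (ε v : ℝ) : ℝ := Real.smoothTransition ((v - (1 - ε)) / (2 * ε))

lemma contDiff_ph (ε : ℝ) {n : ℕ∞} : ContDiff ℝ n (ph ε) := by
  unfold ph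
  exact Real.smoothTransition.contDiff.comp (by fun_prop)

lemma ph_zero {ε v : ℝ} (hε : 0 < ε) (hv : v ≤ 1 - ε) : ph ε v = 0 := by
  apply Real.smoothTransition.zero_of_nonpos
  exact div_nonpos_of_nonpos_of_nonneg (by linarith) (by linarith)

lemma ph_one {ε v : ℝ} (hε : 0 < ε) (hv : 1 + ε ≤ v) : ph ε v = 1 := by
  apply Real.smoothTransition.one_of_one_le
  rw [le_div_iff₀ (by linarith)]
  linarith

lemma ph_mono {ε : ℝ} (hε : 0 < ε) : Monotone (ph ε) := by
  intro a b hab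
  unfold ph
  apply Real.smoothTransition.monotone
  gcongr

lemma deriv_ph_nonneg {ε : ℝ} (hε : 0 < ε) (v : ℝ) : 0 ≤ deriv (ph ε) v :=
  (ph_mono hε).deriv_nonneg

lemma deriv_ph_low {ε v : ℝ} (hε : 0 < ε) (hv : v < 1 - ε) : deriv (ph ε) v = 0 := by
  have h : ph ε =ᶠ[nhds v] fun _ => (0 : ℝ) := by
    filter_upwards [Iio_mem_nhds hv] with s hs
    exact ph_zero hε (le_of_lt hs)
  rw [h.deriv_eq, deriv_const]

lemma deriv_ph_high {ε v : ℝ} (hε : 0 < ε) (hv : 1 + ε < v) : deriv (ph ε) v = 0 := by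
  have h : ph ε =ᶠ[nhds v] fun _ => (1 : ℝ) := by
    filter_upwards [Ioi_mem_nhds hv] with s hs
    exact ph_one hε (le_of_lt hs)
  rw [h.deriv_eq, deriv_const]

lemma hasDerivAt_ph (ε v : ℝ) : HasDerivAt (ph ε) (deriv (ph ε) v) v :=
  ((contDiff_ph ε (n := 1)).differentiable (by norm_num) v).hasDerivAt

/-- the cut-off in the plane -/
noncomputable def fe (ε : ℝ) (x : ℂ) : ℂ := (ph ε (vv x) : ℂ)

/-- logarithmic form of `v` -/
lemma vv_eq_log {z : ℂ} (hz : z ≠ 0) :
    vv z = Real.exp (Complex.log z).re * Real.sinc (Complex.log z).im := by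
  rw [Complex.log_re, Complex.log_im, Real.exp_log (norm_pos_iff.2 hz), vv]

lemma contDiffAt_vv {x : ℂ} (hx : x ∈ slitPlane) {n : WithTop ℕ∞} : ContDiffAt ℝ n vv x := by
  have h0 : x ≠ 0 := Complex.slitPlane_ne_zero hx
  have hl : ContDiffAt ℝ n Complex.log x := (Complex.contDiffAt_log hx).restrict_scalars ℝ
  have h1 : ContDiffAt ℝ n (fun z => (Complex.log z).re) x := reCLM.contDiff.contDiffAt.comp x hl
  have h2 : ContDiffAt ℝ n (fun z => (Complex.log z).im) x := imCLM.contDiff.contDiffAt.comp x hl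
  have h3 : ContDiffAt ℝ n (fun z => Real.exp (Complex.log z).re) x := h1.exp
  have h4 : ContDiffAt ℝ n (fun z => Real.sinc (Complex.log z).im) x :=
    contDiff_sinc.contDiffAt.comp x h2
  refine (h3.mul h4).congr_of_eventuallyEq ?_
  filter_upwards [isOpen_ne.mem_nhds h0] with z hz
  exact vv_eq_log hz

/-- the factor `e(x)` -/
noncomputable def ee (x : ℂ) : ℂ :=
  1 - I * ((deriv Real.sinc x.arg / Real.sinc x.arg : ℝ) : ℂ)

lemma fderiv_vv {x : ℂ} (hx : x ∈ slitPlane) (h : ℂ) :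
    fderiv ℝ vv x h = vv x * (ee x / x * h).re := by
  have h0 : x ≠ 0 := Complex.slitPlane_ne_zero hx
  have hl : HasFDerivAt Complex.log
      ((ContinuousLinearMap.toSpanSingleton ℂ (x⁻¹ : ℂ)).restrictScalars ℝ) x :=
    (Complex.hasStrictDerivAt_log hx).hasDerivAt.hasFDerivAt.restrictScalars ℝ
  set D : ℂ →L[ℝ] ℂ := (ContinuousLinearMap.toSpanSingleton ℂ (x⁻¹ : ℂ)).restrictScalars ℝ with hD
  have hDh : D h = h * x⁻¹ := by
    rw [hD]
    simp
  have h1 : HasFDerivAt (fun z => (Complex.log z).re) (reCLM.comp D) x :=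
    reCLM.hasFDerivAt.comp x hl
  have h2 : HasFDerivAt (fun z => (Complex.log z).im) (imCLM.comp D) x :=
    imCLM.hasFDerivAt.comp x hl
  have h3 := h1.exp
  have h4 := (hasDerivAt_sinc (Complex.log x).im).comp_hasFDerivAt x h2
  have h5 := h3.mul h4
  have h6 : vv =ᶠ[nhds x] fun z => Real.exp (Complex.log z).re * Real.sinc (Complex.log z).im := by
    filter_upwards [isOpen_ne.mem_nhds h0] with z hz
    exact vv_eq_log hz
  have h7 : fderiv ℝ vv x = _ := (h5.congr_of_eventuallyEq h6).fderiv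
  rw [h7]
  have hsp : 0 < Real.sinc x.arg := by
    refine sinc_pos (Complex.neg_pi_lt_arg x) (lt_of_le_of_ne (Complex.arg_le_pi x) ?_)
    exact Complex.slitPlane_arg_ne_pi hx
  simp only [ContinuousLinearMap.add_apply, ContinuousLinearMap.smul_apply,
    ContinuousLinearMap.comp_apply, reCLM_apply, imCLM_apply, hDh, smul_eq_mul, Function.comp]
  rw [Complex.log_im, Complex.log_re, Real.exp_log (norm_pos_iff.2 h0), vv, ee]
  have h8 : ((1 - I * ((deriv Real.sinc x.arg / Real.sinc x.arg : ℝ) : ℂ)) / x * h).re =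
      (h * x⁻¹).re + deriv Real.sinc x.arg / Real.sinc x.arg * (h * x⁻¹).im := by
    have : (1 - I * ((deriv Real.sinc x.arg / Real.sinc x.arg : ℝ) : ℂ)) / x * h =
        h * x⁻¹ - ((deriv Real.sinc x.arg / Real.sinc x.arg : ℝ) : ℂ) * (I * (h * x⁻¹)) := by
      rw [div_eq_mul_inv]; ring
    rw [this, sub_re, re_ofReal_mul, I_mul_re]
    ring
  rw [h8]
  field_simp
  ring

lemma contDiff_fe {ε : ℝ} (hε : 0 < ε) (hε2 : ε ≤ 1 / 2) : ContDiff ℝ 2 (fe ε) := by
  rw [contDiff_iff_contDiffAt]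
  intro x
  by_cases hx : x ∈ slitPlane
  · have h1 : ContDiffAt ℝ 2 (ph ε) (vv x) := by
      have := (contDiff_ph ε (n := 2)).contDiffAt (x := vv x)
      exact_mod_cast this
    exact ofRealCLM.contDiff.contDiffAt.comp x (h1.comp x (contDiffAt_vv hx))
  · have h : fe ε =ᶠ[nhds x] fun _ => (0 : ℂ) := by
      filter_upwards [vv_small hx] with z hz
      rw [fe, ph_zero hε (by linarith), ofReal_zero]
    exact contDiffAt_const.congr_of_eventuallyEq h

theorem cut_fe {ε : ℝ} (hε : 0 < ε) (hε2 : ε ≤ 1 / 2) : Cut (fe ε) where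
  smooth := contDiff_fe hε hε2
  zero := by
    intro x hx
    by_contra hcon
    push Not at hcon
    apply hx
    rw [fe, ph_zero hε (by linarith [vv_le_norm x]), ofReal_zero]
  one := by
    intro x hx
    by_contra hcon
    push Not at hcon
    apply hx
    rw [fe, ph_one hε (by linarith [re_le_vv x]), ofReal_one]

/-- the nonnegative factor -/
noncomputable def lam (ε : ℝ) (x : ℂ) : ℝ := deriv (ph ε) (vv x) * vv x / 2

lemma lam_nonneg {ε : ℝ} (hε : 0 < ε) (x : ℂ) : 0 ≤ lam ε x :=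
  div_nonneg (mul_nonneg (deriv_ph_nonneg hε _) (vv_nonneg x)) (by norm_num)

lemma lam_ne {ε : ℝ} (hε : 0 < ε) {x : ℂ} (h : lam ε x ≠ 0) :
    x ∈ slitPlane ∧ |vv x - 1| ≤ ε := by
  constructor
  · by_contra hx
    apply h
    rw [lam, vv_of_not_slit hx]
    ring
  · have h1 : deriv (ph ε) (vv x) ≠ 0 := by
      intro h0
      apply h
      rw [lam, h0]
      ring
    rw [abs_le]
    constructor
    · by_contra hcon
      exact h1 (deriv_ph_low hε (by linarith))
    · by_contra hcon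
      exact h1 (deriv_ph_high hε (by linarith))

lemma fderiv_fe {ε : ℝ} (hε : 0 < ε) (hε2 : ε ≤ 1 / 2) (x h : ℂ) :
    fderiv ℝ (fe ε) x h = ((2 * lam ε x * (ee x / x * h).re : ℝ) : ℂ) := by
  by_cases hx : x ∈ slitPlane
  · have h1 : HasFDerivAt vv (fderiv ℝ vv x) x :=
      ((contDiffAt_vv hx (n := 1)).differentiableAt (by norm_num)).hasFDerivAt
    have h2 := (hasDerivAt_ph ε (vv x)).comp_hasFDerivAt x h1
    have h3 := (ofRealCLM.hasFDerivAt (x := ph ε (vv x))).comp x h2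
    have h4 : fderiv ℝ (fe ε) x = _ := HasFDerivAt.fderiv h3
    rw [h4]
    simp only [ContinuousLinearMap.comp_apply, ContinuousLinearMap.smul_apply, ofRealCLM_apply,
      smul_eq_mul]
    rw [fderiv_vv hx, lam]
    congr 1
    ring
  · have h : fe ε =ᶠ[nhds x] fun _ => (0 : ℂ) := by
      filter_upwards [vv_small hx] with z hz
      rw [fe, ph_zero hε (by linarith), ofReal_zero]
    rw [h.fderiv_eq, fderiv_fun_const, Pi.zero_apply, ContinuousLinearMap.zero_apply, lam,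
      vv_of_not_slit hx]
    simp

lemma wd_fe {ε : ℝ} (hε : 0 < ε) (hε2 : ε ≤ 1 / 2) (x : ℂ) :
    wd (fe ε) x = (lam ε x : ℂ) * (ee x / x) := by
  unfold wd
  rw [fderiv_fe hε hε2, fderiv_fe hε hε2, mul_one]
  have h1 : (ee x / x * I).re = -(ee x / x).im := by
    rw [mul_comm, I_mul_re]
  rw [h1]
  push_cast
  linear_combination (lam ε x : ℂ) * re_add_im (ee x / x)

lemma wb_fe {ε : ℝ} (hε : 0 < ε) (hε2 : ε ≤ 1 / 2) (x : ℂ) :
    wb (fe ε) x = (lam ε x : ℂ) * (starRingEnd ℂ) (ee x / x) := by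
  unfold wb
  rw [fderiv_fe hε hε2, fderiv_fe hε hε2, mul_one]
  have h1 : (ee x / x * I).re = -(ee x / x).im := by
    rw [mul_comm, I_mul_re]
  rw [h1]
  have h2 : ∀ u : ℂ, (starRingEnd ℂ) u = (u.re : ℂ) - u.im * I := by
    intro u
    apply Complex.ext <;> simp
  rw [h2]
  push_cast
  ring

end Pool.Agent.Work.MP_8d2b2d_co.CY
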