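import Pool.Agent.Work.MP_8d2b2d_co.CY.Trig
import Pool.Agent.Work.MP_8d2b2d_co.CY.Fe

/-!
# The angle of `e(x) exp(-i arg(x)/2)`
-/

set_option autoImplicit false
set_option linter.unusedSectionVars false
set_option linter.deprecated false

namespace Pool.Agent.Work.MP_8d2b2d_co.CY

open Complex

lemma LL_neg (t : ℝ) : LL (-t) = - LL t := by
  unfold LL
  rw [deriv_sinc_neg, Real.sinc_neg]
  ring

lemma LL_zero : LL 0 = 0 := by
  unfold LL
  rw [deriv_sinc_zero]
  simp

lemma ee_eq (x : ℂ) : ee x = 1 + (LL x.arg : ℂ) * I := by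
  unfold ee LL
  push_cast
  ring

lemma angle_pos {t : ℝ} (h0 : 0 < t) (h1 : t < Real.pi) :
    ∃ θ : ℝ, (1 + (LL t : ℂ) * I) = (‖(1 + (LL t : ℂ) * I)‖ : ℂ) * cexp (((θ + t / 2 : ℝ) : ℂ) * I) ∧
      |θ| ≤ HH t / 2 := by
  set e : ℂ := 1 + (LL t : ℂ) * I with he
  set z : ℂ := e * cexp (((-(t / 2) : ℝ) : ℂ) * I) with hz
  have hre : z.re = Real.cos (t / 2) + LL t * Real.sin (t / 2) := by
    rw [hz, he, mul_re, exp_ofReal_mul_I_re, exp_ofReal_mul_I_im, Real.cos_neg, Real.sin_neg]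
    simp
  have him : z.im = LL t * Real.cos (t / 2) - Real.sin (t / 2) := by
    rw [hz, he, mul_im, exp_ofReal_mul_I_re, exp_ofReal_mul_I_im, Real.cos_neg, Real.sin_neg]
    simp
    ring
  have hpi := Real.pi_pos
  have hc : 0 < Real.cos (t / 2) := Real.cos_pos_of_mem_Ioo ⟨by linarith, by linarith⟩
  have hs : 0 < Real.sin (t / 2) := Real.sin_pos_of_pos_of_lt_pi (by linarith) (by linarith)
  have hL := LL_nonneg h0 h1
  have hre0 : 0 < z.re := by
    rw [hre]
    nlinarith [mul_nonneg hL hs.le]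
  have him0 : z.im ≤ 0 := by
    rw [him]
    linarith [LL_upper h0 h1]
  have habs : |z.arg| < Real.pi / 2 := Complex.abs_arg_lt_pi_div_two_iff.2 (Or.inl hre0)
  have hargle : z.arg ≤ 0 := by
    rcases him0.eq_or_lt with h | h
    · exact (Complex.arg_eq_zero_iff.2 ⟨hre0.le, h⟩).le
    · exact (Complex.arg_neg_iff.2 h).le
  have hH0 := HH_nonneg h0.le h1.le
  have hH1 := HH_le h0.le
  have hge : -(HH t / 2) ≤ z.arg := by
    by_contra hcon
    push Not at hcon
    have h3 : Real.sin (z.arg + HH t / 2) < 0 := by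
      apply Real.sin_neg_of_neg_of_neg_pi_lt
      · linarith
      · have := (abs_lt.1 habs).1
        linarith
    have h4 : ‖z‖ * Real.sin (z.arg + HH t / 2) = LL t * Real.cos (am t) - Real.sin (am t) := by
      rw [Real.sin_add]
      have e1 : ‖z‖ * Real.cos z.arg = z.re := Complex.norm_mul_cos_arg z
      have e2 : ‖z‖ * Real.sin z.arg = z.im := Complex.norm_mul_sin_arg z
      have e3 : am t = t / 2 - HH t / 2 := by unfold am; ring
      rw [e3, Real.cos_sub, Real.sin_sub]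
      linear_combination Real.cos (HH t / 2) * e2 + Real.sin (HH t / 2) * e1 +
        Real.cos (HH t / 2) * him + Real.sin (HH t / 2) * hre
    have h5 := LL_lower h0 h1
    have h6 : 0 < ‖z‖ := norm_pos_iff.2 (fun h => by rw [h] at hre0; simp at hre0)
    nlinarith [mul_neg_of_pos_of_neg h6 h3]
  refine ⟨z.arg, ?_, ?_⟩
  · have h7 : (‖z‖ : ℂ) * cexp ((z.arg : ℂ) * I) = z := Complex.norm_mul_exp_arg_mul_I z
    have h8 : ‖z‖ = ‖e‖ := by
      rw [hz, norm_mul, Complex.norm_exp_ofReal_mul_I, mul_one]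
    rw [h8] at h7
    have h9 : cexp (((z.arg + t / 2 : ℝ) : ℂ) * I) =
        cexp ((z.arg : ℂ) * I) * cexp (((t / 2 : ℝ) : ℂ) * I) := by
      rw [← Complex.exp_add]
      congr 1
      push_cast
      ring
    rw [h9, ← mul_assoc, h7, hz, mul_assoc, ← Complex.exp_add]
    have h10 : ((-(t / 2) : ℝ) : ℂ) * I + ((t / 2 : ℝ) : ℂ) * I = 0 := by
      push_cast; ring
    rw [h10, Complex.exp_zero, mul_one]
  · rw [abs_le]
    constructor <;> linarith

lemma angle {t : ℝ} (h0 : -Real.pi < t) (h1 : t < Real.pi) :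
    ∃ θ : ℝ, (1 + (LL t : ℂ) * I) = (‖(1 + (LL t : ℂ) * I)‖ : ℂ) * cexp (((θ + t / 2 : ℝ) : ℂ) * I) ∧
      |θ| ≤ HH |t| / 2 := by
  rcases lt_trichotomy t 0 with h | h | h
  · obtain ⟨θ, h2, h3⟩ := angle_pos (t := -t) (by linarith) (by linarith)
    refine ⟨-θ, ?_, ?_⟩
    · have h4 := congrArg (starRingEnd ℂ) h2
      rw [LL_neg] at h4
      have e1 : (starRingEnd ℂ) (1 + ((-LL t : ℝ) : ℂ) * I) = 1 + (LL t : ℂ) * I := by
        rw [map_add, map_one, map_mul, conj_ofReal, conj_I]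
        push_cast
        ring
      have e2 : ‖(1 + ((-LL t : ℝ) : ℂ) * I)‖ = ‖1 + (LL t : ℂ) * I‖ := by
        rw [← e1, RCLike.norm_conj]
      rw [e1, map_mul, conj_ofReal, e2, ← Complex.exp_conj, map_mul, conj_ofReal, conj_I] at h4
      refine h4.trans ?_
      congr 2
      push_cast
      ring
    · rw [abs_neg, abs_of_neg h]
      exact h3
  · subst h
    refine ⟨0, ?_, ?_⟩
    · rw [LL_zero]
      simp
    · simp [HH]
  · obtain ⟨θ, h2, h3⟩ := angle_pos h h1
    refine ⟨θ, h2, ?_⟩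
    rwa [abs_of_pos h]

end Pool.Agent.Work.MP_8d2b2d_co.CY
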