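import Pool.Agent.Work.MP_8d2b2d_co.CY.Dens2

/-!
# Bounds for the angles when `n ≤ 7`
-/

set_option autoImplicit false
set_option linter.unusedSectionVars false
set_option linter.deprecated false

namespace Pool.Agent.Work.MP_8d2b2d_co.CY

open Complex MeasureTheory
open scoped ComplexOrder

variable {ι : Type} [Fintype ι] [DecidableEq ι]

/-- `κ = Re x / v` is at most `(π/2)(π/2 - |arg x|)` -/
lemma re_le_cot {x : ℂ} (hx : x ∈ slitPlane) :
    x.re ≤ vv x * (Real.pi / 2 * (Real.pi / 2 - |x.arg|)) := by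
  have h1 : |x.arg| < Real.pi := by
    rw [abs_lt]
    exact ⟨Complex.neg_pi_lt_arg x, lt_of_le_of_ne (Complex.arg_le_pi x)
      (Complex.slitPlane_arg_ne_pi hx)⟩
  have h2 : Real.cos |x.arg| ≤ Real.pi / 2 * (Real.pi / 2 - |x.arg|) * Real.sinc |x.arg| := by
    rcases (abs_nonneg x.arg).eq_or_lt with h | h
    · rw [← h]
      simp only [Real.cos_zero, Real.sinc_zero]
      have := Real.pi_gt_three
      nlinarith
    · have h3 := cot_bound h.le h1
      rw [← sinc_mul |x.arg|] at h3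
      have h4 : |x.arg| * Real.cos |x.arg| ≤
          |x.arg| * (Real.pi / 2 * (Real.pi / 2 - |x.arg|) * Real.sinc |x.arg|) := by
        calc |x.arg| * Real.cos |x.arg| ≤ _ := h3
          _ = _ := by ring
      exact le_of_mul_le_mul_left h4 h
  have h3 : Real.cos |x.arg| = Real.cos x.arg := Real.cos_abs _
  have h4 : Real.sinc |x.arg| = Real.sinc x.arg := by
    rcases abs_choice x.arg with h | h
    · rw [h]
    · rw [h, Real.sinc_neg]
  rw [h3, h4] at h2
  have h5 : x.re = ‖x‖ * Real.cos x.arg := (Complex.norm_mul_cos_arg x).symm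
  rw [h5, vv]
  calc ‖x‖ * Real.cos x.arg ≤
      ‖x‖ * (Real.pi / 2 * (Real.pi / 2 - |x.arg|) * Real.sinc x.arg) :=
        mul_le_mul_of_nonneg_left h2 (norm_nonneg _)
    _ = _ := by ring

/-- the two bounds -/
theorem angle_bounds {M : Matrix ι ι ℂ} (hM : M.PosDef) {ε : ℝ} (hε : 0 < ε) (hε2 : ε ≤ 1 / 2)
    {y : ι → ℂ} (h : ∀ i, lam ε (xx M i y) ≠ 0) {n : ℝ} (hn : n = (Fintype.card ι : ℝ)) :
    |∑ i, (xx M i y).arg| ≤ ε * (n * Real.pi) ∧
    ∑ i, HH |(xx M i y).arg| ≤ n * HH (Real.pi / 2) + ε * (n * (3 * n + 1)) := by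
  have hpi := Real.pi_pos
  have hn0 : 0 ≤ n := by rw [hn]; exact Nat.cast_nonneg _
  have hsum : 0 ≤ ∑ i, xx M i y := by
    rw [sum_xx]
    exact hM.posSemidef.dotProduct_mulVec_nonneg y
  have hre : 0 ≤ ∑ i, (xx M i y).re := by
    rw [← Complex.re_sum]
    exact (Complex.nonneg_iff.1 hsum).1
  have him : ∑ i, (xx M i y).im = 0 := by
    rw [← Complex.im_sum]
    exact (Complex.nonneg_iff.1 hsum).2.symm
  have hl := fun i => lam_ne hε (h i)
  have hv1 : ∀ i, 1 / 2 ≤ vv (xx M i y) := fun i => by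
    have := (abs_le.1 (hl i).2).1
    linarith
  have hv2 : ∀ i, vv (xx M i y) ≤ 3 / 2 := fun i => by
    have := (abs_le.1 (hl i).2).2
    linarith
  have hcard : ∀ c : ℝ, ∑ _i : ι, c = n * c := by
    intro c
    rw [Finset.sum_const, nsmul_eq_mul, Finset.card_univ, hn]
  constructor
  · have h1 : ∑ i, (xx M i y).arg = ∑ i, (1 - vv (xx M i y)) * (xx M i y).arg := by
      have : ∑ i, vv (xx M i y) * (xx M i y).arg = 0 := by
        rw [← him]
        exact Finset.sum_congr rfl fun i _ => vv_mul_arg _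
      simp only [sub_mul, one_mul, Finset.sum_sub_distrib, this, sub_zero]
    rw [h1]
    refine (Finset.abs_sum_le_sum_abs _ _).trans ?_
    have h2 : ∀ i, |(1 - vv (xx M i y)) * (xx M i y).arg| ≤ ε * Real.pi := by
      intro i
      rw [abs_mul, abs_sub_comm]
      exact mul_le_mul (hl i).2 (Complex.abs_arg_le_pi _) (abs_nonneg _) hε.le
    refine (Finset.sum_le_sum fun i _ => h2 i).trans (le_of_eq ?_)
    rw [hcard]
    ring
  · set κ : ι → ℝ := fun i => (xx M i y).re / vv (xx M i y) with hκ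
    have hvk : ∀ i, vv (xx M i y) * κ i = (xx M i y).re := by
      intro i
      have : vv (xx M i y) ≠ 0 := by have := hv1 i; intro h0; rw [h0] at this; norm_num at this
      rw [hκ]
      field_simp
    have hk1 : ∀ i, κ i ≤ 1 := by
      intro i
      rw [hκ]
      simp only
      rw [div_le_one (by linarith [hv1 i])]
      exact re_le_vv _
    have hk2 : ∀ i, -(3 * n) ≤ κ i := by
      intro i
      have e1 : ∑ j, (xx M j y).re ≤ (xx M i y).re + ∑ _j : ι, (3 / 2 : ℝ) := by
        rw [← Finset.add_sum_erase Finset.univ (fun j => (xx M j y).re) (Finset.mem_univ i)]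
        refine add_le_add le_rfl ?_
        calc ∑ j ∈ Finset.univ.erase i, (xx M j y).re ≤ ∑ j ∈ Finset.univ.erase i, (3 / 2 : ℝ) :=
              Finset.sum_le_sum fun j _ => (re_le_vv _).trans (hv2 j)
          _ ≤ ∑ _j : ι, (3 / 2 : ℝ) :=
              Finset.sum_le_sum_of_subset_of_nonneg (Finset.erase_subset _ _)
                (fun _ _ _ => by norm_num)
      rw [hcard] at e1
      have e2 : -(3 / 2 * n) ≤ vv (xx M i y) * κ i := by rw [hvk]; linarith
      by_contra hcon
      push Not at hcon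
      have e3 := hv1 i
      nlinarith
    have hk3 : ∀ i, |κ i| ≤ 3 * n + 1 := by
      intro i
      rw [abs_le]
      constructor <;> linarith [hk1 i, hk2 i]
    have hk4 : -(ε * (n * (3 * n + 1))) ≤ ∑ i, κ i := by
      have e1 : ∑ i, κ i = ∑ i, (xx M i y).re + ∑ i, (1 - vv (xx M i y)) * κ i := by
        rw [← Finset.sum_add_distrib]
        refine Finset.sum_congr rfl fun i _ => ?_
        rw [← hvk i]
        ring
      have e2 : |∑ i, (1 - vv (xx M i y)) * κ i| ≤ ε * (n * (3 * n + 1)) := by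
        refine (Finset.abs_sum_le_sum_abs _ _).trans ?_
        have h2 : ∀ i, |(1 - vv (xx M i y)) * κ i| ≤ ε * (3 * n + 1) := by
          intro i
          rw [abs_mul, abs_sub_comm]
          exact mul_le_mul (hl i).2 (hk3 i) (abs_nonneg _) hε.le
        refine (Finset.sum_le_sum fun i _ => h2 i).trans (le_of_eq ?_)
        rw [hcard]
        ring
      have e3 := (abs_le.1 e2).1
      linarith
    set s : ℝ := 1 / 3 - 3 * (49 / 2500) * (Real.pi / 2) ^ 2 with hs
    have hs0 : 0 < s := slope_pos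
    have hs1 : s ≤ 1 := by
      rw [hs]
      have : 0 ≤ (Real.pi / 2) ^ 2 := by positivity
      linarith
    have h5 : ∀ i, HH |(xx M i y).arg| ≤ HH (Real.pi / 2) + s * (-(2 / Real.pi) * κ i) := by
      intro i
      refine (HH_tangent (abs_nonneg _)).trans ?_
      refine add_le_add le_rfl (mul_le_mul_of_nonneg_left ?_ hs0.le)
      have e1 := re_le_cot (hl i).1
      rw [← hvk i] at e1
      have e2 : κ i ≤ Real.pi / 2 * (Real.pi / 2 - |(xx M i y).arg|) :=
        le_of_mul_le_mul_left e1 (by linarith [hv1 i])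
      have e3 : 2 / Real.pi * κ i ≤ Real.pi / 2 - |(xx M i y).arg| := by
        calc 2 / Real.pi * κ i ≤ 2 / Real.pi * (Real.pi / 2 * (Real.pi / 2 - |(xx M i y).arg|)) :=
              mul_le_mul_of_nonneg_left e2 (by positivity)
          _ = Real.pi / 2 - |(xx M i y).arg| := by field_simp
      linarith
    refine (Finset.sum_le_sum fun i _ => h5 i).trans ?_
    rw [Finset.sum_add_distrib, hcard, ← Finset.mul_sum, ← Finset.mul_sum]
    refine add_le_add le_rfl ?_
    have h6 : 2 / Real.pi ≤ 1 := by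
      rw [div_le_one hpi]
      linarith [Real.pi_gt_three]
    have h7 : 0 < 2 / Real.pi := by positivity
    have h8 : -(2 / Real.pi) * ∑ i, κ i ≤ 2 / Real.pi * (ε * (n * (3 * n + 1))) := by
      nlinarith
    have h9 : 0 ≤ ε * (n * (3 * n + 1)) := by positivity
    have h10 : -(2 / Real.pi) * ∑ i, κ i ≤ ε * (n * (3 * n + 1)) := by nlinarith
    calc s * (-(2 / Real.pi) * ∑ i, κ i) ≤ s * (ε * (n * (3 * n + 1))) :=
          mul_le_mul_of_nonneg_left h10 hs0.le
      _ ≤ 1 * (ε * (n * (3 * n + 1))) := mul_le_mul_of_nonneg_right hs1 h9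
      _ = _ := one_mul _

/-- the gap -/
noncomputable def GG : ℝ := Real.pi - 7 * HH (Real.pi / 2)

lemma GG_pos : 0 < GG := by
  have := HH_pi
  unfold GG
  linarith

/-- total angle bound for at most seven variables -/
theorem total_angle {M : Matrix ι ι ℂ} (hM : M.PosDef) {ε : ℝ} (hε : 0 < ε) (hε2 : ε ≤ 1 / 2)
    (hε3 : ε ≤ GG / 400) (hcard : Fintype.card ι ≤ 7)
    {y : ι → ℂ} (h : ∀ i, lam ε (xx M i y) ≠ 0) {Θ : ℝ}
    (hΘ : |Θ| ≤ (∑ i, HH |(xx M i y).arg|) / 2) :
    |(∑ i, (xx M i y).arg) / 2 + Θ| ≤ Real.pi / 2 - GG / 4 := by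
  obtain ⟨h1, h2⟩ := angle_bounds hM hε hε2 h rfl
  set n : ℝ := (Fintype.card ι : ℝ) with hn
  have hn0 : 0 ≤ n := Nat.cast_nonneg _
  have hn7 : n ≤ 7 := by
    rw [hn]
    exact_mod_cast hcard
  have hpi := Real.pi_lt_d2
  have hHH : 0 ≤ HH (Real.pi / 2) := HH_nonneg (by positivity) (by linarith [Real.pi_pos])
  have h3 : |(∑ i, (xx M i y).arg) / 2 + Θ| ≤ |∑ i, (xx M i y).arg| / 2 + |Θ| := by
    refine (abs_add_le _ _).trans ?_
    rw [abs_div, abs_two]
  have h4 : ε * (n * Real.pi) ≤ ε * 23 := by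
    apply mul_le_mul_of_nonneg_left _ hε.le
    nlinarith [Real.pi_pos]
  have h5 : ε * (n * (3 * n + 1)) ≤ ε * 154 := by
    apply mul_le_mul_of_nonneg_left _ hε.le
    nlinarith
  have h6 : n * HH (Real.pi / 2) ≤ 7 * HH (Real.pi / 2) := mul_le_mul_of_nonneg_right hn7 hHH
  have h7 : 7 * HH (Real.pi / 2) = Real.pi - GG := by unfold GG; ring
  linarith

end Pool.Agent.Work.MP_8d2b2d_co.CY
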