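import Pool.Agent.Work.MP_8d2b2d_co.CY.Stokes

/-!
# Chain rules for `∂/∂ȳ_k`
-/

set_option autoImplicit false
set_option linter.unusedSectionVars false
set_option linter.deprecated false

namespace Pool.Agent.Work.MP_8d2b2d_co.CY

open MeasureTheory Complex

variable {ι : Type} [Fintype ι] [DecidableEq ι]

/-- the derivative `∂/∂x` in the plane -/
noncomputable def wd (f : ℂ → ℂ) (x : ℂ) : ℂ := (fderiv ℝ f x 1 - I * fderiv ℝ f x I) / 2

/-- the derivative `∂/∂x̄` in the plane -/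
noncomputable def wb (f : ℂ → ℂ) (x : ℂ) : ℂ := (fderiv ℝ f x 1 + I * fderiv ℝ f x I) / 2

lemma fderiv_eq_wd (f : ℂ → ℂ) (x h : ℂ) :
    fderiv ℝ f x h = wd f x * h + wb f x * (starRingEnd ℂ) h := by
  have h1 : h = h.re • (1 : ℂ) + h.im • I := by
    simp [Complex.re_add_im]
  have h2 : fderiv ℝ f x h = h.re * fderiv ℝ f x 1 + h.im * fderiv ℝ f x I := by
    conv_lhs => rw [h1]
    rw [map_add, map_smul, map_smul, Complex.real_smul, Complex.real_smul]
  have h3 : (starRingEnd ℂ) h = (h.re : ℂ) - h.im * I := by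
    apply Complex.ext <;> simp
  have h4 : h = (h.re : ℂ) + h.im * I := by
    apply Complex.ext <;> simp
  rw [h2, h3]
  unfold wd wb
  linear_combination (-(fderiv ℝ f x 1 - I * fderiv ℝ f x I) / 2) * h4 +
    (fderiv ℝ f x I * (h.im : ℂ)) * I_sq

/-- the function `x_i(y) = ȳ_i (M y)_i` -/
noncomputable def xx (M : Matrix ι ι ℂ) (i : ι) (y : ι → ℂ) : ℂ :=
  (starRingEnd ℂ) (y i) * ∑ l, M i l * y l

lemma hasFDerivAt_coord (i : ι) (y : ι → ℂ) :
    HasFDerivAt (fun y : ι → ℂ => y i) (ContinuousLinearMap.proj (R := ℝ) (φ := fun _ : ι => ℂ) i) y :=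
  (ContinuousLinearMap.proj (R := ℝ) (φ := fun _ : ι => ℂ) i).hasFDerivAt

/-- the differential of `x_i` -/
noncomputable def dxx (M : Matrix ι ι ℂ) (i : ι) (y : ι → ℂ) : (ι → ℂ) →L[ℝ] ℂ :=
  ((starRingEnd ℂ) (y i)) • (∑ l, M i l • ContinuousLinearMap.proj (R := ℝ) (φ := fun _ : ι => ℂ) l) +
    (∑ l, M i l * y l) • ((conjCLE : ℂ →L[ℝ] ℂ).comp
      (ContinuousLinearMap.proj (R := ℝ) (φ := fun _ : ι => ℂ) i))

lemma dxx_apply (M : Matrix ι ι ℂ) (i : ι) (y v : ι → ℂ) :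
    dxx M i y v = (starRingEnd ℂ) (y i) * ∑ l, M i l * v l +
      (∑ l, M i l * y l) * (starRingEnd ℂ) (v i) := by
  unfold dxx
  simp

lemma hasFDerivAt_xx (M : Matrix ι ι ℂ) (i : ι) (y : ι → ℂ) :
    HasFDerivAt (xx M i) (dxx M i y) y := by
  have h1 : HasFDerivAt (fun y : ι → ℂ => (starRingEnd ℂ) (y i))
      ((conjCLE : ℂ →L[ℝ] ℂ).comp (ContinuousLinearMap.proj (R := ℝ) (φ := fun _ : ι => ℂ) i)) y :=
    ((conjCLE : ℂ →L[ℝ] ℂ).comp (ContinuousLinearMap.proj (R := ℝ) (φ := fun _ : ι => ℂ) i)).hasFDerivAt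
  have h2 : HasFDerivAt (fun y : ι → ℂ => ∑ l, M i l * y l)
      (∑ l, M i l • ContinuousLinearMap.proj (R := ℝ) (φ := fun _ : ι => ℂ) l) y := by
    apply HasFDerivAt.fun_sum
    intro l _
    exact (hasFDerivAt_coord l y).const_mul (M i l)
  exact h1.mul h2

lemma contDiff_xx (M : Matrix ι ι ℂ) (i : ι) {n : WithTop ℕ∞} : ContDiff ℝ n (xx M i) := by
  unfold xx
  have h1 : ∀ l, ContDiff ℝ n (fun y : ι → ℂ => y l) := fun l => contDiff_apply ℝ ℂ l
  exact (conjCLE.contDiff.comp (h1 i)).mul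
    (ContDiff.sum fun l _ => contDiff_const.mul (h1 l))

lemma fderiv_comp_xx (M : Matrix ι ι ℂ) (i : ι) {f : ℂ → ℂ} {y : ι → ℂ}
    (hf : DifferentiableAt ℝ f (xx M i y)) (v : ι → ℂ) :
    fderiv ℝ (fun y => f (xx M i y)) y v = fderiv ℝ f (xx M i y) (dxx M i y v) := by
  have h := hf.hasFDerivAt.comp y (hasFDerivAt_xx M i y)
  have h2 : fderiv ℝ (fun y => f (xx M i y)) y = (fderiv ℝ f (xx M i y)).comp (dxx M i y) :=
    h.fderiv
  rw [h2]
  rfl

/-- chain rule for `f(x_i(y))` -/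
lemma dbar_comp_xx (M : Matrix ι ι ℂ) (i k : ι) {f : ℂ → ℂ} {y : ι → ℂ}
    (hf : DifferentiableAt ℝ f (xx M i y)) :
    dbar k (fun y => f (xx M i y)) y =
      wd f (xx M i y) * (if i = k then ∑ l, M i l * y l else 0) +
        wb f (xx M i y) * (y i * (starRingEnd ℂ) (M i k)) := by
  unfold dbar
  rw [fderiv_comp_xx M i hf, fderiv_comp_xx M i hf, fderiv_eq_wd, fderiv_eq_wd, dxx_apply,
    dxx_apply]
  have h1 : ∀ c : ℂ, ∑ l, M i l * (Pi.single k c : ι → ℂ) l = M i k * c := by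
    intro c
    rw [Finset.sum_eq_single k]
    · rw [Pi.single_eq_same]
    · intro l _ hl
      rw [Pi.single_eq_of_ne hl, mul_zero]
    · intro h
      exact absurd (Finset.mem_univ k) h
  rw [h1, h1]
  set s : ℂ := ∑ l, M i l * y l with hs
  have h2 : ∀ c : ℂ, (Pi.single k c : ι → ℂ) i = if i = k then c else 0 := by
    intro c
    rw [Pi.single_apply]
  rw [h2, h2]
  set a := wd f (xx M i y)
  set b := wb f (xx M i y)
  by_cases h : i = k
  · simp only [if_pos h, map_one, mul_one, conj_I, map_add, map_mul, map_neg,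
      Complex.conj_conj]
    linear_combination (-(a * s) / 2 + a * (starRingEnd ℂ) (y i) * M i k / 2
      + b * (starRingEnd ℂ) s / 2 - b * y i * (starRingEnd ℂ) (M i k) / 2) * I_sq
  · simp only [if_neg h, map_zero, mul_zero, add_zero, map_mul, Complex.conj_conj,
      mul_one, conj_I]
    linear_combination (a * (starRingEnd ℂ) (y i) * M i k / 2
      - b * y i * (starRingEnd ℂ) (M i k) / 2) * I_sq

/-- chain rule for `g(y_i)` -/
lemma dbar_comp_coord (i k : ι) {g : ℂ → ℂ} {y : ι → ℂ} (hg : DifferentiableAt ℝ g (y i)) :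
    dbar k (fun y => g (y i)) y = if i = k then wb g (y i) else 0 := by
  have h := hg.hasFDerivAt.comp y (hasFDerivAt_coord i y)
  have h2 : ∀ v, fderiv ℝ (fun y : ι → ℂ => g (y i)) y v = fderiv ℝ g (y i) (v i) := by
    intro v
    have : fderiv ℝ (fun y : ι → ℂ => g (y i)) y = (fderiv ℝ g (y i)).comp
      (ContinuousLinearMap.proj (R := ℝ) (φ := fun _ : ι => ℂ) i) := h.fderiv
    rw [this]
    rfl
  unfold dbar
  rw [h2, h2, Pi.single_apply, Pi.single_apply]
  by_cases hik : i = k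
  · rw [if_pos hik, if_pos hik, if_pos hik]
    rfl
  · rw [if_neg hik, if_neg hik, if_neg hik, map_zero]
    ring

end Pool.Agent.Work.MP_8d2b2d_co.CY
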