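import Mathlib

/-!
# The Wirtinger derivative `∂/∂ȳ_j` on `ℂ^ι`
-/

set_option autoImplicit false
set_option linter.unusedSectionVars false
set_option linter.deprecated false

namespace Pool.Agent.Work.MP_8d2b2d_co.CY

open MeasureTheory Complex

variable {ι : Type} [Fintype ι] [DecidableEq ι]

/-- the derivative `∂/∂ȳ_j` of `F` at `y` -/
noncomputable def dbar (j : ι) (F : (ι → ℂ) → ℂ) (y : ι → ℂ) : ℂ :=
  (fderiv ℝ F y (Pi.single j 1) + I * fderiv ℝ F y (Pi.single j I)) / 2

lemma dbar_mul (j : ι) {f g : (ι → ℂ) → ℂ} {y : ι → ℂ} (hf : DifferentiableAt ℝ f y)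
    (hg : DifferentiableAt ℝ g y) :
    dbar j (fun y => f y * g y) y = f y * dbar j g y + g y * dbar j f y := by
  have h := fderiv_fun_mul hf hg
  unfold dbar
  rw [h]
  simp only [ContinuousLinearMap.add_apply, ContinuousLinearMap.smul_apply, smul_eq_mul]
  ring

lemma dbar_prod {κ : Type} [DecidableEq κ] (j : ι) (s : Finset κ) {f : κ → (ι → ℂ) → ℂ}
    {y : ι → ℂ} (hf : ∀ i ∈ s, DifferentiableAt ℝ (f i) y) :
    dbar j (fun y => ∏ i ∈ s, f i y) y = ∑ i ∈ s, (∏ i' ∈ s.erase i, f i' y) * dbar j (f i) y := by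
  have h : fderiv ℝ (fun y => ∏ i ∈ s, f i y) y =
      ∑ i ∈ s, (∏ j ∈ s.erase i, f j y) • fderiv ℝ (f i) y := fderiv_finsetProd hf
  unfold dbar
  rw [h]
  simp only [ContinuousLinearMap.sum_apply, ContinuousLinearMap.smul_apply, smul_eq_mul]
  rw [Finset.mul_sum, ← Finset.sum_add_distrib, Finset.sum_div]
  refine Finset.sum_congr rfl fun i _ => ?_
  ring

lemma dbar_sub (j : ι) {f g : (ι → ℂ) → ℂ} {y : ι → ℂ} (hf : DifferentiableAt ℝ f y)
    (hg : DifferentiableAt ℝ g y) :
    dbar j (fun y => f y - g y) y = dbar j f y - dbar j g y := by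
  have h := fderiv_fun_sub hf hg
  unfold dbar
  rw [h]
  simp only [ContinuousLinearMap.sub_apply]
  ring

/-- holomorphic functions have zero `∂̄` derivatives -/
lemma dbar_eq_zero (j : ι) {F : (ι → ℂ) → ℂ} {y : ι → ℂ} (hF : DifferentiableAt ℂ F y) :
    dbar j F y = 0 := by
  have h1 : fderiv ℝ F y = (fderiv ℂ F y).restrictScalars ℝ :=
    (hF.hasFDerivAt.restrictScalars ℝ).fderiv
  have h2 : (Pi.single j I : ι → ℂ) = I • Pi.single j 1 := by
    rw [← Pi.single_smul, smul_eq_mul, mul_one]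
  unfold dbar
  rw [h1]
  simp only [ContinuousLinearMap.coe_restrictScalars']
  rw [h2, map_smul, smul_eq_mul, ← mul_assoc, I_mul_I]
  ring

lemma dbar_congr (j : ι) {F G : (ι → ℂ) → ℂ} {y : ι → ℂ} (h : F =ᶠ[nhds y] G) :
    dbar j F y = dbar j G y := by
  unfold dbar
  rw [h.fderiv_eq]

lemma dbar_const (j : ι) (c : ℂ) (y : ι → ℂ) : dbar j (fun _ => c) y = 0 := by
  unfold dbar
  simp

lemma contDiff_dbar (j : ι) {F : (ι → ℂ) → ℂ} (hF : ContDiff ℝ 2 F) :
    ContDiff ℝ 1 (dbar j F) := by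
  have h1 : ContDiff ℝ 1 (fderiv ℝ F) := hF.fderiv_right (by norm_num)
  have h2 : ∀ v : ι → ℂ, ContDiff ℝ 1 (fun y => fderiv ℝ F y v) :=
    fun v => h1.clm_apply contDiff_const
  unfold dbar
  exact ((h2 _).add (contDiff_const.mul (h2 _))).div_const _

/-- `∂̄` derivatives commute -/
lemma dbar_comm (j k : ι) {F : (ι → ℂ) → ℂ} (hF : ContDiff ℝ 2 F) (y : ι → ℂ) :
    dbar j (dbar k F) y = dbar k (dbar j F) y := by
  have h1 : ContDiff ℝ 1 (fderiv ℝ F) := hF.fderiv_right (by norm_num)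
  have h3 : DifferentiableAt ℝ (fderiv ℝ F) y := (h1.differentiable (by norm_num)) y
  have h4 : ∀ v u : ι → ℂ, fderiv ℝ (fun y => fderiv ℝ F y v) y u = fderiv ℝ (fderiv ℝ F) y u v := by
    intro v u
    rw [fderiv_clm_apply h3 (differentiableAt_const v)]
    simp
  have h5 : ∀ v : ι → ℂ, DifferentiableAt ℝ (fun y => fderiv ℝ F y v) y :=
    fun v => h3.clm_apply (differentiableAt_const v)
  have h6 : ∀ v u : ι → ℂ, fderiv ℝ (fun y => (fderiv ℝ F y v + I * fderiv ℝ F y u) / 2) y =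
      fun w => (fderiv ℝ (fderiv ℝ F) y w v + I * fderiv ℝ (fderiv ℝ F) y w u) / 2 := by
    intro v u
    funext w
    have e1 : fderiv ℝ (fun y => (fderiv ℝ F y v + I * fderiv ℝ F y u) / 2) y =
        (2 : ℂ)⁻¹ • (fderiv ℝ (fun y => fderiv ℝ F y v) y +
          I • fderiv ℝ (fun y => fderiv ℝ F y u) y) := by
      have a1 := ((h5 v).hasFDerivAt.add ((h5 u).hasFDerivAt.const_mul I)).mul_const (2 : ℂ)⁻¹
      have a2 := a1.fderiv
      simp only [div_eq_mul_inv]
      exact a2
    rw [e1]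
    simp only [ContinuousLinearMap.smul_apply, ContinuousLinearMap.add_apply, smul_eq_mul, h4]
    ring
  have hs : ∀ u v : ι → ℂ, fderiv ℝ (fderiv ℝ F) y u v = fderiv ℝ (fderiv ℝ F) y v u := by
    intro u v
    exact (hF.contDiffAt.isSymmSndFDerivAt (by simp)).eq u v
  unfold dbar
  rw [h6, h6]
  simp only
  rw [hs (Pi.single j 1) (Pi.single k 1), hs (Pi.single j 1) (Pi.single k I),
    hs (Pi.single j I) (Pi.single k 1), hs (Pi.single j I) (Pi.single k I)]
  ring

/-- the integral of a `∂̄` derivative of a compactly supported function is zero -/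
lemma integral_dbar (j : ι) {g : (ι → ℂ) → ℂ} (hg : ContDiff ℝ 1 g) (hc : HasCompactSupport g) :
    Integrable (dbar j g) ∧ ∫ y, dbar j g y = 0 := by
  have hd : ∀ v : ι → ℂ, Continuous fun y => fderiv ℝ g y v := fun v =>
    (hg.continuous_fderiv (by norm_num)).clm_apply continuous_const
  have hcs : ∀ v : ι → ℂ, HasCompactSupport fun y => fderiv ℝ g y v := fun v =>
    hc.fderiv_apply ℝ v
  have hi : ∀ v : ι → ℂ, Integrable fun y => fderiv ℝ g y v := fun v =>
    (hd v).integrable_of_hasCompactSupport (hcs v)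
  have hz : ∀ v : ι → ℂ, ∫ y, fderiv ℝ g y v = 0 := by
    intro v
    have h := integral_mul_fderiv_eq_neg_fderiv_mul_of_integrable (𝕜 := ℂ)
      (μ := (volume : Measure (ι → ℂ))) (f := fun _ => (1 : ℂ)) (g := g) (v := v)
      (by simp) (by simpa using hi v)
      (by simpa using hg.continuous.integrable_of_hasCompactSupport hc)
      (fun _ _ => differentiableAt_const _) (fun _ _ => (hg.differentiable (by norm_num)) _)
    simpa using h
  constructor
  · unfold dbar
    exact ((hi _).add ((hi _).const_mul I)).div_const _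
  · unfold dbar
    rw [integral_div, integral_add (hi _) ((hi _).const_mul I), integral_const_mul, hz, hz]
    simp

end Pool.Agent.Work.MP_8d2b2d_co.CY
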