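import Mathlib

/-!
# Expansion of `det(diag a + diag b · N)` in principal minors
-/

set_option autoImplicit false
set_option linter.unusedSectionVars false
set_option linter.deprecated false

namespace Pool.Agent.Work.MP_8d2b2d_co.CY

open Matrix
open scoped ComplexOrder

variable {ι : Type} [Fintype ι] [DecidableEq ι]

/-- the matrix with the rows of `N` in `S` and unit rows outside -/
def NS (N : Matrix ι ι ℂ) (S : Finset ι) : Matrix ι ι ℂ :=
  Matrix.of fun i k => if i ∈ S then N i k else if i = k then 1 else 0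

/-- expansion of the determinant -/
theorem det_expand (N : Matrix ι ι ℂ) (a b : ι → ℂ) :
    (Matrix.of fun i k => a i * (if i = k then 1 else 0) + b i * N i k).det =
      ∑ S : Finset ι, (∏ i ∈ Sᶜ, a i) * (∏ i ∈ S, b i) * (NS N S).det := by
  set f := (Matrix.detRowAlternating : (ι → ℂ) [⋀^ι]→ₗ[ℂ] ℂ).toMultilinearMap with hf
  have h1 : (Matrix.of fun i k => a i * (if i = k then 1 else 0) + b i * N i k).det =
      f ((fun i k => b i * N i k) + fun i k => a i * (if i = k then 1 else 0)) := by
    change Matrix.det _ = Matrix.det _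
    congr 1
    ext i k
    simp [Matrix.of_apply, add_comm]
  rw [h1, MultilinearMap.map_add_univ]
  refine Finset.sum_congr rfl fun S _ => ?_
  have h2 : S.piecewise (fun i k => b i * N i k) (fun i k => a i * (if i = k then 1 else 0)) =
      fun i => (S.piecewise b a i) • ((NS N S) i) := by
    funext i k
    by_cases h : i ∈ S
    · rw [Finset.piecewise_eq_of_mem _ _ _ h, Finset.piecewise_eq_of_mem _ _ _ h, Pi.smul_apply,
        NS, Matrix.of_apply, if_pos h, smul_eq_mul]
    · rw [Finset.piecewise_eq_of_notMem _ _ _ h, Finset.piecewise_eq_of_notMem _ _ _ h,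
        Pi.smul_apply, NS, Matrix.of_apply, if_neg h, smul_eq_mul]
  rw [h2]
  refine (MultilinearMap.map_smul_univ f (S.piecewise b a) (fun i => NS N S i)).trans ?_
  rw [smul_eq_mul]
  have h3 : ∏ i, S.piecewise b a i = (∏ i ∈ Sᶜ, a i) * ∏ i ∈ S, b i := by
    rw [Finset.prod_piecewise, Finset.univ_inter, mul_comm, Finset.compl_eq_univ_sdiff]
  rw [h3]
  rfl

/-- the determinant of `NS N S` is a principal minor -/
theorem det_NS_nonneg {N : Matrix ι ι ℂ} (hN : N.PosSemidef) (S : Finset ι) :
    0 ≤ (NS N S).det := by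
  rw [twoBlockTriangular_det' (NS N S) (fun i => i ∉ S)
    (fun i hi j hj => by
      rw [NS, Matrix.of_apply, if_neg hi, if_neg]
      rintro rfl
      exact hj hi)]
  have h1 : toSquareBlockProp (NS N S) (fun i => i ∉ S) = 1 := by
    ext i k
    change (if i.1 ∈ S then N i.1 k.1 else if i.1 = k.1 then (1 : ℂ) else 0) = _
    rw [if_neg i.2, Matrix.one_apply]
    simp only [Subtype.ext_iff]
  have h2 : toSquareBlockProp (NS N S) (fun i => ¬ i ∉ S) =
      N.submatrix (fun i : {i // ¬ i ∉ S} => i.1) (fun i : {i // ¬ i ∉ S} => i.1) := by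
    ext i k
    change (if i.1 ∈ S then N i.1 k.1 else if i.1 = k.1 then (1 : ℂ) else 0) = _
    rw [if_pos (not_not.1 i.2), Matrix.submatrix_apply]
  rw [h1, h2, det_one, one_mul]
  exact (hN.submatrix _).det_nonneg

end Pool.Agent.Work.MP_8d2b2d_co.CY
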