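import Pool.Agent.Work.MP_8d2b2d_co.CY.Angle
import Pool.Agent.Work.MP_8d2b2d_co.CY.Minors

/-!
# The density on the cycle
-/

set_option autoImplicit false
set_option linter.unusedSectionVars false
set_option linter.deprecated false

namespace Pool.Agent.Work.MP_8d2b2d_co.CY

open Complex MeasureTheory
open scoped ComplexOrder

variable {ι : Type} [Fintype ι] [DecidableEq ι]

/-- the integrand -/
noncomputable def DD (M : Matrix ι ι ℂ) (ε : ℝ) (k : ℕ) (y : ι → ℂ) : ℂ :=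
  W0 M k y * (JJ (fun i y => fe ε (xx M i y)) y).det

lemma det_JJ_fe {M : Matrix ι ι ℂ} (hM : M.IsHermitian) {ε : ℝ} (hε : 0 < ε) (hε2 : ε ≤ 1 / 2)
    (y : ι → ℂ) :
    (JJ (fun i y => fe ε (xx M i y)) y).det =
      ∑ S : Finset ι, (∏ i ∈ Sᶜ, wd (fe ε) (xx M i y) * ∑ l, M i l * y l) *
        (∏ i ∈ S, wb (fe ε) (xx M i y) * y i) * (NS M.transpose S).det := by
  rw [← det_expand]
  congr 1
  ext i k
  rw [JJ, Matrix.of_apply, Matrix.of_apply, dbar_comp_xx M i k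
    ((contDiff_fe hε hε2).differentiable (by norm_num) _), Matrix.transpose_apply]
  have h1 : (starRingEnd ℂ) (M i k) = M k i := hM.apply k i
  rw [h1]
  by_cases h : i = k
  · simp only [if_pos h]
    ring
  · simp only [if_neg h]
    ring

lemma DD_zero {M : Matrix ι ι ℂ} {ε : ℝ} (hε : 0 < ε) (hε2 : ε ≤ 1 / 2)
    {y : ι → ℂ} {i : ι} (h : lam ε (xx M i y) = 0) (k : ℕ) : DD M ε k y = 0 := by
  rw [DD, Matrix.det_eq_zero_of_row_eq_zero i, mul_zero]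
  intro l
  rw [JJ, Matrix.of_apply, dbar_comp_xx M i l
    ((contDiff_fe hε hε2).differentiable (by norm_num) _), wd_fe hε hε2, wb_fe hε hε2, h]
  simp

section factors

variable {ε : ℝ} (X Y Z E : ℂ) (k : ℕ) (r : ℝ)

lemma alpha_eq (hZ : Z = (starRingEnd ℂ) Y) (hY : Y ≠ 0) (hX : X ≠ 0) :
    (X / Z) ^ k * (Y ^ (k + 1))⁻¹ * ((r : ℂ) * (E / X) * (X / Z)) =
      (r : ℂ) * E * X ^ k / ((‖Y‖ ^ 2 : ℝ) : ℂ) ^ (k + 1) := by
  have h1 : ((‖Y‖ ^ 2 : ℝ) : ℂ) = Z * Y := by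
    rw [hZ, mul_comm, mul_conj, normSq_eq_norm_sq]
  have hZ0 : Z ≠ 0 := by
    rw [hZ]
    exact (map_ne_zero _).2 hY
  rw [h1, mul_pow, div_pow]
  field_simp
  ring

lemma beta_eq (hZ : Z = (starRingEnd ℂ) Y) (hY : Y ≠ 0) :
    (X / Z) ^ k * (Y ^ (k + 1))⁻¹ * ((r : ℂ) * (starRingEnd ℂ) (E / X) * Y) =
      (r : ℂ) * (starRingEnd ℂ) (E / X) * X ^ k / ((‖Y‖ ^ 2 : ℝ) : ℂ) ^ k := by
  have h1 : ((‖Y‖ ^ 2 : ℝ) : ℂ) = Z * Y := by
    rw [hZ, mul_comm, mul_conj, normSq_eq_norm_sq]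
  have hZ0 : Z ≠ 0 := by
    rw [hZ]
    exact (map_ne_zero _).2 hY
  rw [h1, mul_pow, div_pow, pow_succ]
  field_simp

end factors

/-- polar form of the two factors -/
lemma factors {M : Matrix ι ι ℂ} {ε : ℝ} (hε : 0 < ε) (hε2 : ε ≤ 1 / 2) {y : ι → ℂ} {i : ι}
    (h : lam ε (xx M i y) ≠ 0) :
    ∃ (θ p q : ℝ), |θ| ≤ HH |(xx M i y).arg| / 2 ∧ 0 ≤ p ∧ 0 ≤ q ∧ ∀ k : ℕ,
      ((∑ l, M i l * y l) ^ k * (y i ^ (k + 1))⁻¹ *
        (wd (fe ε) (xx M i y) * ∑ l, M i l * y l) =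
        ((‖xx M i y‖ / ‖y i‖ ^ 2 : ℝ) : ℂ) ^ k * cexp ((k * (xx M i y).arg : ℝ) * I) *
        ((p : ℂ) * cexp (((xx M i y).arg / 2 + θ : ℝ) * I))) ∧
      ((∑ l, M i l * y l) ^ k * (y i ^ (k + 1))⁻¹ *
        (wb (fe ε) (xx M i y) * y i) =
        ((‖xx M i y‖ / ‖y i‖ ^ 2 : ℝ) : ℂ) ^ k * cexp ((k * (xx M i y).arg : ℝ) * I) *
        ((q : ℂ) * cexp (((xx M i y).arg / 2 - θ : ℝ) * I))) := by
  obtain ⟨hslit, hv⟩ := lam_ne hε h
  set x := xx M i y with hx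
  have hx0 : x ≠ 0 := Complex.slitPlane_ne_zero hslit
  have hy0 : y i ≠ 0 := by
    intro h0
    apply hx0
    rw [hx, xx, h0, map_zero, zero_mul]
  obtain ⟨θ, hθ1, hθ2⟩ := angle (t := x.arg) (Complex.neg_pi_lt_arg x)
    (lt_of_le_of_ne (Complex.arg_le_pi x) (Complex.slitPlane_arg_ne_pi hslit))
  rw [← ee_eq] at hθ1
  have hlam := lam_nonneg hε x
  have hMy : (∑ l, M i l * y l) = x / (starRingEnd ℂ) (y i) := by
    rw [eq_div_iff ((map_ne_zero _).2 hy0), hx, xx, mul_comm]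
  have hxe : x = (‖x‖ : ℂ) * cexp ((x.arg : ℂ) * I) := (Complex.norm_mul_exp_arg_mul_I x).symm
  have hnx : (‖x‖ : ℂ) ≠ 0 := by
    rw [ofReal_ne_zero]
    exact norm_ne_zero_iff.2 hx0
  have hny : ((‖y i‖ ^ 2 : ℝ) : ℂ) ≠ 0 := by
    rw [ofReal_ne_zero]
    exact pow_ne_zero 2 (norm_ne_zero_iff.2 hy0)
  have hxk : ∀ k : ℕ, x ^ k = (‖x‖ : ℂ) ^ k * cexp ((k * x.arg : ℝ) * I) := by
    intro k
    conv_lhs => rw [hxe]
    rw [mul_pow, ← Complex.exp_nat_mul]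
    congr 2
    push_cast
    ring
  refine ⟨θ, lam ε x * ‖ee x‖ / ‖y i‖ ^ 2, lam ε x * ‖ee x‖ / ‖x‖, hθ2,
    by positivity, by positivity, fun k => ⟨?_, ?_⟩⟩
  · rw [wd_fe hε hε2, hMy, alpha_eq x (y i) _ (ee x) k (lam ε x) rfl hy0 hx0, hxk k]
    conv_lhs => rw [hθ1]
    have e1 : cexp (((x.arg / 2 + θ : ℝ) : ℂ) * I) = cexp (((θ + x.arg / 2 : ℝ) : ℂ) * I) := by
      congr 2
      push_cast
      ring
    rw [e1]
    generalize cexp (((θ + x.arg / 2 : ℝ) : ℂ) * I) = W1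
    generalize cexp (((k * x.arg : ℝ) : ℂ) * I) = W2
    push_cast at hny ⊢
    rw [div_pow, pow_succ ((‖y i‖ : ℂ) ^ 2) k]
    field_simp
  · rw [wb_fe hε hε2, hMy, beta_eq x (y i) _ (ee x) k (lam ε x) rfl hy0, hxk k]
    have e2 : (starRingEnd ℂ) (ee x / x) =
        ((‖ee x‖ / ‖x‖ : ℝ) : ℂ) * cexp (((x.arg / 2 - θ : ℝ) : ℂ) * I) := by
      have e3 : ee x / x = ((‖ee x‖ / ‖x‖ : ℝ) : ℂ) * cexp (((-(x.arg / 2 - θ) : ℝ) : ℂ) * I) := by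
        have e4 : cexp (((-(x.arg / 2 - θ) : ℝ) : ℂ) * I) * cexp ((x.arg : ℂ) * I) =
            cexp (((θ + x.arg / 2 : ℝ) : ℂ) * I) := by
          rw [← Complex.exp_add]
          congr 1
          push_cast
          ring
        rw [div_eq_iff hx0]
        calc ee x = (‖ee x‖ : ℂ) * cexp (((θ + x.arg / 2 : ℝ) : ℂ) * I) := hθ1
          _ = (‖ee x‖ : ℂ) * (cexp (((-(x.arg / 2 - θ) : ℝ) : ℂ) * I) * cexp ((x.arg : ℂ) * I)) := by
              rw [e4]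
          _ = ((‖ee x‖ / ‖x‖ : ℝ) : ℂ) * cexp (((-(x.arg / 2 - θ) : ℝ) : ℂ) * I) *
              ((‖x‖ : ℂ) * cexp ((x.arg : ℂ) * I)) := by
              generalize cexp (((-(x.arg / 2 - θ) : ℝ) : ℂ) * I) = W1
              generalize cexp ((x.arg : ℂ) * I) = W2
              push_cast
              field_simp
          _ = _ := by rw [← hxe]
      rw [e3, map_mul, conj_ofReal, ← Complex.exp_conj, map_mul, conj_ofReal, conj_I]
      congr 2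
      push_cast
      ring
    rw [e2]
    generalize cexp (((x.arg / 2 - θ : ℝ) : ℂ) * I) = W1
    generalize cexp (((k * x.arg : ℝ) : ℂ) * I) = W2
    push_cast at hny ⊢
    rw [div_pow]
    field_simp

end Pool.Agent.Work.MP_8d2b2d_co.CY
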