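import Pool.Agent.Work.MP_8d2b2d_co.CY.Dens

/-!
# The density on the cycle, assembled
-/

set_option autoImplicit false
set_option linter.unusedSectionVars false
set_option linter.deprecated false

namespace Pool.Agent.Work.MP_8d2b2d_co.CY

open Complex MeasureTheory
open scoped ComplexOrder

variable {ι : Type} [Fintype ι] [DecidableEq ι]

/-- the modulus of `∏ (My)_i / y_i` -/
noncomputable def om (M : Matrix ι ι ℂ) (y : ι → ℂ) : ℝ := ∏ i, (‖xx M i y‖ / ‖y i‖ ^ 2)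

lemma om_nonneg (M : Matrix ι ι ℂ) (y : ι → ℂ) : 0 ≤ om M y :=
  Finset.prod_nonneg fun i _ => by positivity

/-- expansion of the integrand with angles -/
theorem dens {M : Matrix ι ι ℂ} (hM : M.PosDef) {ε : ℝ} (hε : 0 < ε) (hε2 : ε ≤ 1 / 2)
    {y : ι → ℂ} (h : ∀ i, lam ε (xx M i y) ≠ 0) :
    ∃ (C Θ : Finset ι → ℝ), (∀ S, 0 ≤ C S) ∧
      (∀ S, |Θ S| ≤ (∑ i, HH |(xx M i y).arg|) / 2) ∧
      ∀ k : ℕ, DD M ε k y = (om M y : ℂ) ^ k * cexp ((k * ∑ i, (xx M i y).arg : ℝ) * I) *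
        ∑ S : Finset ι, (C S : ℂ) * cexp ((((∑ i, (xx M i y).arg) / 2 + Θ S : ℝ) : ℂ) * I) := by
  choose θ p q hθ hp hq hf using fun i => factors hε hε2 (h i)
  have hm : ∀ S : Finset ι, 0 ≤ (NS M.transpose S).det :=
    fun S => det_NS_nonneg hM.posSemidef.transpose S
  have hmre : ∀ S : Finset ι, (NS M.transpose S).det = (((NS M.transpose S).det).re : ℂ) := by
    intro S
    have := (Complex.nonneg_iff.1 (hm S)).2
    apply Complex.ext
    · simp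
    · simp [← this]
  set t : ι → ℝ := fun i => (xx M i y).arg with ht
  refine ⟨fun S => (∏ i ∈ Sᶜ, p i) * (∏ i ∈ S, q i) * ((NS M.transpose S).det).re,
    fun S => ∑ i ∈ Sᶜ, θ i - ∑ i ∈ S, θ i, ?_, ?_, ?_⟩
  · intro S
    exact mul_nonneg (mul_nonneg (Finset.prod_nonneg fun i _ => hp i)
      (Finset.prod_nonneg fun i _ => hq i)) (Complex.nonneg_iff.1 (hm S)).1
  · intro S
    have h1 : |∑ i ∈ Sᶜ, θ i - ∑ i ∈ S, θ i| ≤ ∑ i ∈ Sᶜ, |θ i| + ∑ i ∈ S, |θ i| := by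
      refine (abs_sub _ _).trans ?_
      exact add_le_add (Finset.abs_sum_le_sum_abs _ _) (Finset.abs_sum_le_sum_abs _ _)
    have h2 : ∑ i ∈ Sᶜ, |θ i| + ∑ i ∈ S, |θ i| = ∑ i, |θ i| := by
      rw [add_comm]
      exact Finset.sum_add_sum_compl S _
    rw [h2] at h1
    refine h1.trans ?_
    rw [Finset.sum_div]
    exact Finset.sum_le_sum fun i _ => hθ i
  · intro k
    rw [DD, det_JJ_fe hM.1 hε hε2, Finset.mul_sum, Finset.mul_sum]
    refine Finset.sum_congr rfl fun S _ => ?_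
    have e1 : W0 M k y = (∏ i ∈ Sᶜ, ((∑ l, M i l * y l) ^ k * (y i ^ (k + 1))⁻¹)) *
        ∏ i ∈ S, ((∑ l, M i l * y l) ^ k * (y i ^ (k + 1))⁻¹) := by
      rw [W0, Finset.prod_compl_mul_prod]
    have e2 : W0 M k y * ((∏ i ∈ Sᶜ, wd (fe ε) (xx M i y) * ∑ l, M i l * y l) *
        (∏ i ∈ S, wb (fe ε) (xx M i y) * y i) * (NS M.transpose S).det) =
        (∏ i ∈ Sᶜ, ((∑ l, M i l * y l) ^ k * (y i ^ (k + 1))⁻¹ *
          (wd (fe ε) (xx M i y) * ∑ l, M i l * y l))) *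
        (∏ i ∈ S, ((∑ l, M i l * y l) ^ k * (y i ^ (k + 1))⁻¹ *
          (wb (fe ε) (xx M i y) * y i))) * (NS M.transpose S).det := by
      rw [e1, Finset.prod_mul_distrib (s := Sᶜ)
        (f := fun i => (∑ l, M i l * y l) ^ k * (y i ^ (k + 1))⁻¹),
        Finset.prod_mul_distrib (s := S)
        (f := fun i => (∑ l, M i l * y l) ^ k * (y i ^ (k + 1))⁻¹)]
      ring
    rw [e2, Finset.prod_congr rfl fun i _ => (hf i k).1, Finset.prod_congr rfl fun i _ => (hf i k).2,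
      Finset.prod_mul_distrib (s := Sᶜ), Finset.prod_mul_distrib (s := S)]
    have e3 : (∏ i ∈ Sᶜ, ((‖xx M i y‖ / ‖y i‖ ^ 2 : ℝ) : ℂ) ^ k *
        cexp ((k * (xx M i y).arg : ℝ) * I)) *
        (∏ i ∈ S, ((‖xx M i y‖ / ‖y i‖ ^ 2 : ℝ) : ℂ) ^ k * cexp ((k * (xx M i y).arg : ℝ) * I)) =
        (om M y : ℂ) ^ k * cexp ((k * ∑ i, t i : ℝ) * I) := by
      rw [om, Finset.prod_compl_mul_prod, Finset.prod_mul_distrib, Finset.prod_pow,
        ← Complex.exp_sum, ofReal_prod]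
      congr 2
      rw [Finset.mul_sum, ofReal_sum, Finset.sum_mul]
    have e4 : (∏ i ∈ Sᶜ, (p i : ℂ) * cexp (((xx M i y).arg / 2 + θ i : ℝ) * I)) *
        (∏ i ∈ S, (q i : ℂ) * cexp (((xx M i y).arg / 2 - θ i : ℝ) * I)) =
        (((∏ i ∈ Sᶜ, p i) * (∏ i ∈ S, q i) : ℝ) : ℂ) *
          cexp ((((∑ i, t i) / 2 + (∑ i ∈ Sᶜ, θ i - ∑ i ∈ S, θ i) : ℝ) : ℂ) * I) := by
      rw [Finset.prod_mul_distrib, Finset.prod_mul_distrib, ← Complex.exp_sum, ← Complex.exp_sum]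
      have e5 : cexp ((((∑ i, t i) / 2 + (∑ i ∈ Sᶜ, θ i - ∑ i ∈ S, θ i) : ℝ) : ℂ) * I) =
          cexp (∑ i ∈ Sᶜ, ((xx M i y).arg / 2 + θ i : ℝ) * I) *
          cexp (∑ i ∈ S, ((xx M i y).arg / 2 - θ i : ℝ) * I) := by
        rw [← Complex.exp_add]
        congr 1
        rw [← Finset.sum_mul, ← Finset.sum_mul, ← add_mul, ← ofReal_sum, ← ofReal_sum, ← ofReal_add]
        congr 2
        rw [Finset.sum_add_distrib, Finset.sum_sub_distrib]
        have e6 : (∑ i, t i) = ∑ i ∈ Sᶜ, t i + ∑ i ∈ S, t i := by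
          rw [add_comm]
          exact (Finset.sum_add_sum_compl S _).symm
        rw [e6, add_div, Finset.sum_div, Finset.sum_div]
        ring
      rw [e5]
      push_cast
      ring
    have e7 : ∀ a b c d m : ℂ, a * b * (c * d) * m = (a * c) * (b * d) * m := fun a b c d m => by ring
    rw [e7, e3, e4, hmre S]
    simp only
    push_cast
    ring

end Pool.Agent.Work.MP_8d2b2d_co.CY
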