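import Pool.Agent.Work.MP_8d2b2d_co.CY.Radial
import Pool.Agent.Work.MP_8d2b2d_co.PL.Mat

/-!
# Evaluation of the torus integral
-/

set_option autoImplicit false
set_option linter.unusedSectionVars false
set_option linter.deprecated false

namespace Pool.Agent.Work.MP_8d2b2d_co.CY

open MeasureTheory Complex MvPolynomial
open Pool.Agent.Work.MP_8d2b2d_co Pool.Agent.Work.MP_8d2b2d_co.PL

variable {ι : Type} [Fintype ι] [DecidableEq ι]

lemma continuous_wb {f : ℂ → ℂ} (hf : ContDiff ℝ 1 f) : Continuous (wb f) := by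
  unfold wb
  have h : ∀ v : ℂ, Continuous fun z => fderiv ℝ f z v := fun v =>
    (hf.continuous_fderiv (by norm_num)).clm_apply continuous_const
  exact ((h 1).add (continuous_const.mul (h I))).div_const 2

lemma continuous_wd {f : ℂ → ℂ} (hf : ContDiff ℝ 1 f) : Continuous (wd f) := by
  unfold wd
  have h : ∀ v : ℂ, Continuous fun z => fderiv ℝ f z v := fun v =>
    (hf.continuous_fderiv (by norm_num)).clm_apply continuous_const
  exact ((h 1).sub (continuous_const.mul (h I))).div_const 2

/-- dividing a function vanishing near zero by a power -/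
lemma contDiff_inv_pow_mul {χ : ℂ → ℂ} {n : ℕ∞} (hχ : ContDiff ℝ n χ) {δ : ℝ} (hδ : 0 < δ)
    (h0 : ∀ z, ‖z‖ < δ → χ z = 0) (k : ℕ) : ContDiff ℝ n (fun z => (z ^ k)⁻¹ * χ z) := by
  rw [contDiff_iff_contDiffAt]
  intro z
  by_cases hz : z = 0
  · subst hz
    have h : (fun z => (z ^ k)⁻¹ * χ z) =ᶠ[nhds (0 : ℂ)] fun _ => 0 := by
      filter_upwards [Metric.ball_mem_nhds (0 : ℂ) hδ] with z hz
      rw [h0 z (by simpa using hz), mul_zero]
    exact (contDiffAt_const (c := (0 : ℂ))).congr_of_eventuallyEq h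
  · refine ContDiffAt.mul ?_ hχ.contDiffAt
    have h1 : ContDiffAt ℝ n (fun z : ℂ => z ^ k) z := contDiffAt_id.pow k
    exact h1.inv (pow_ne_zero _ hz)

lemma wb_gg_zero {z : ℂ} (h : ‖z‖ < 1 / 2) : wb gg z = 0 := by
  rw [wb_gg, deriv_rho_zero, ofReal_zero, zero_mul]
  rw [normSq_eq_norm_sq]
  nlinarith [norm_nonneg z]

lemma wb_gg_zero' {z : ℂ} (h : 1 < ‖z‖) : wb gg z = 0 := by
  rw [wb_gg, deriv_rho_one, ofReal_zero, zero_mul]
  rw [normSq_eq_norm_sq]
  nlinarith [norm_nonneg z]

lemma continuous_gam (k : ℕ) : Continuous (gam k) := by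
  have h : ContDiff ℝ ((0 : ℕ∞) : WithTop ℕ∞) (wb gg) := by
    have := contDiff_zero (𝕜 := ℝ).2 (continuous_wb (contDiff_gg (n := 1)))
    exact_mod_cast this
  have := contDiff_inv_pow_mul h (δ := 1 / 2) (by norm_num) (fun z hz => wb_gg_zero hz) (k + 1)
  exact this.continuous

lemma hasCompactSupport_gam (k : ℕ) : HasCompactSupport (gam k) := by
  refine HasCompactSupport.intro (isCompact_closedBall (0 : ℂ) 1) fun z hz => ?_
  rw [mem_closedBall_zero_iff, not_le] at hz
  rw [gam, wb_gg_zero' hz, mul_zero]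

lemma integrable_pow_gam (k N : ℕ) : Integrable (fun z : ℂ => z ^ N * gam k z) := by
  refine ((continuous_pow N).mul (continuous_gam k)).integrable_of_hasCompactSupport ?_
  exact (hasCompactSupport_gam k).mul_left

/-- torus integral of a polynomial -/
theorem integral_poly (p : MvPolynomial ι ℂ) (k : ℕ) :
    ∫ y : ι → ℂ, eval y p * ∏ i, gam k (y i) =
      (Real.pi : ℂ) ^ Fintype.card ι * p.coeff (Finsupp.equivFunOnFinite.symm fun _ => k) := by
  have h1 : ∀ y : ι → ℂ, eval y p * ∏ i, gam k (y i) =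
      ∑ α ∈ p.support, p.coeff α * ∏ i, (y i ^ α i * gam k (y i)) := by
    intro y
    rw [eval_eq', Finset.sum_mul]
    refine Finset.sum_congr rfl fun α _ => ?_
    rw [Finset.prod_mul_distrib]
    ring
  simp only [h1]
  rw [integral_finsetSum]
  · have h2 : ∀ α ∈ p.support, ∫ y : ι → ℂ, p.coeff α * ∏ i, (y i ^ α i * gam k (y i)) =
        if α = Finsupp.equivFunOnFinite.symm (fun _ => k) then
          (Real.pi : ℂ) ^ Fintype.card ι * p.coeff α else 0 := by
      intro α _
      rw [integral_const_mul, integral_fintype_prod_volume_eq_prod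
        (fun (i : ι) (z : ℂ) => z ^ α i * gam k z)]
      simp only [integral_gam]
      by_cases h : α = Finsupp.equivFunOnFinite.symm (fun _ => k)
      · rw [if_pos h]
        have : ∀ i, α i = k := by
          intro i
          rw [h]
          rfl
        simp only [this, if_true, Finset.prod_const, Finset.card_univ]
        ring
      · rw [if_neg h]
        obtain ⟨c, hc⟩ : ∃ c, α c ≠ k := by
          by_contra hcon
          push Not at hcon
          apply h
          ext c
          rw [hcon c]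
          rfl
        rw [Finset.prod_eq_zero (Finset.mem_univ c) (if_neg hc), mul_zero]
    rw [Finset.sum_congr rfl h2, Finset.sum_ite_eq']
    split_ifs with h
    · rfl
    · rw [notMem_support_iff.1 h, mul_zero]
  · intro α _
    refine Integrable.const_mul ?_ _
    exact Integrable.fintype_prod (f := fun (i : ι) (z : ℂ) => z ^ α i * gam k z)
      (fun i => integrable_pow_gam _ _)

/-- the polynomial `∏ (M y)_i ^ k` -/
noncomputable def pol (M : Matrix ι ι ℂ) (k : ℕ) : MvPolynomial ι ℂ := (∏ i, L (M i)) ^ k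

lemma eval_pol (M : Matrix ι ι ℂ) (k : ℕ) (y : ι → ℂ) :
    eval y (pol M k) = ∏ i, (∑ l, M i l * y l) ^ k := by
  rw [pol, map_pow, map_prod, ← Finset.prod_pow]
  refine Finset.prod_congr rfl fun i _ => ?_
  rw [eval_L]

/-- the diagonal coefficient -/
noncomputable def cf (M : Matrix ι ι ℂ) (k : ℕ) : ℂ :=
  (pol M k).coeff (Finsupp.equivFunOnFinite.symm fun _ => k)

lemma cont_snd (m k : ℕ) : cont (Prod.snd : Fin k × Fin m → Fin m) =
    Finsupp.equivFunOnFinite.symm fun _ => k := by
  ext a
  rw [cont_apply]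
  change _ = k
  have e : {x : Fin k × Fin m // x.2 = a} ≃ Fin k :=
    { toFun := fun x => x.1.1
      invFun := fun i => ⟨(i, a), rfl⟩
      left_inv := fun x => by
        obtain ⟨⟨i, j⟩, rfl⟩ := x
        rfl
      right_inv := fun i => rfl }
  rw [Fintype.card_congr e, Fintype.card_fin]

/-- the diagonal coefficient is `per (J_k ⊗ M) / (k!)^m` -/
theorem perm_eq_cf {m : ℕ} (M : Matrix (Fin m) (Fin m) ℂ) (k : ℕ) :
    (JM k M).permanent = (k.factorial : ℂ) ^ m * cf M k := by
  have h0 : (JM k M).permanent = (JM k M.transpose).permanent := by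
    rw [← Matrix.permanent_transpose]
    rfl
  rw [h0]
  set F : (Fin k × Fin m → Fin m) → ℂ := fun c => ∏ p : Fin k × Fin m, M p.2 (c p) with hF
  have h1 : (JM k M.transpose).permanent =
      ∑ σ : Equiv.Perm (Fin k × Fin m), F (Prod.snd ∘ σ) := by
    unfold Matrix.permanent
    refine Finset.sum_congr rfl fun σ _ => ?_
    simp only [hF]
    refine Finset.prod_congr rfl fun p _ => ?_
    rw [JM, Matrix.kroneckerMap_apply, Matrix.of_apply, one_mul]
    rfl
  rw [h1, sum_perm' F Prod.snd, cf, pol]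
  have h2 : (∏ i : Fin m, L (M i)) ^ k = ∏ p : Fin k × Fin m, L (M p.2) := by
    rw [Fintype.prod_prod_type]
    simp only [Finset.prod_const, Finset.card_univ, Fintype.card_fin]
  rw [h2, prod_L (fun p : Fin k × Fin m => M p.2), coeff_sum, Finset.mul_sum]
  refine Finset.sum_congr rfl fun c _ => ?_
  rw [coeff_C_mul, coeff_monomial, cont_snd]
  by_cases h : Finsupp.equivFunOnFinite.symm (fun _ => k) = cont c
  · rw [if_pos h, if_pos h.symm, mul_one]
    congr 1
    rw [fac]
    push_cast
    have : ∀ i : Fin m, (Finsupp.equivFunOnFinite.symm (fun _ : Fin m => k)) i = k := fun i => rfl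
    simp [this]
  · rw [if_neg h, if_neg (fun hh => h hh.symm)]
    ring

/-- the Jacobian of the radial cut-offs -/
lemma det_JJ_gg (y : ι → ℂ) :
    (JJ (fun i y => gg (y i)) y).det = ∏ i, wb gg (y i) := by
  have h : JJ (fun i y => gg (y i)) y = Matrix.diagonal fun i => wb gg (y i) := by
    ext i k
    rw [JJ, Matrix.of_apply, dbar_comp_coord i k
      ((contDiff_gg (n := 1)).differentiable (by norm_num) _), Matrix.diagonal_apply]
  rw [h, Matrix.det_diagonal]

/-- evaluation of the torus integral -/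
theorem integral_gg (M : Matrix ι ι ℂ) (k : ℕ) :
    ∫ y : ι → ℂ, (∏ i, ((∑ l, M i l * y l) ^ k * (y i ^ (k + 1))⁻¹)) *
      (JJ (fun i y => gg (y i)) y).det = (Real.pi : ℂ) ^ Fintype.card ι * cf M k := by
  rw [cf, ← integral_poly]
  refine integral_congr_ae (Filter.Eventually.of_forall fun y => ?_)
  simp only
  rw [det_JJ_gg, eval_pol, Finset.prod_mul_distrib, mul_assoc, ← Finset.prod_mul_distrib]
  rfl

end Pool.Agent.Work.MP_8d2b2d_co.CY
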