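import Pool.Agent.Work.MP_8d2b2d_co.CY.Bound

/-!
# Hankel positivity for at most seven variables
-/

set_option autoImplicit false
set_option linter.unusedSectionVars false
set_option linter.deprecated false

namespace Pool.Agent.Work.MP_8d2b2d_co.CY

open Complex MeasureTheory
open scoped ComplexOrder

variable {ι : Type} [Fintype ι] [DecidableEq ι]

/-- pointwise facts about the integrand -/
theorem pointwise_facts {M : Matrix ι ι ℂ} (hM : M.PosDef) {ε : ℝ} (hε : 0 < ε) (hε2 : ε ≤ 1 / 2)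
    (hε3 : ε ≤ GG / 400) (hcard : Fintype.card ι ≤ 7) (y : ι → ℂ) :
    Real.sin (GG / 4) * ‖DD M ε 0 y‖ ≤ (DD M ε 0 y).re ∧
    (∀ k, ‖DD M ε k y‖ = om M y ^ k * ‖DD M ε 0 y‖) ∧
    (∀ k : ℕ, ‖DD M ε k y - (om M y : ℂ) ^ k * DD M ε 0 y‖ ≤
      om M y ^ k * ((k * (ε * (7 * Real.pi))) * ‖DD M ε 0 y‖)) := by
  by_cases h : ∀ i, lam ε (xx M i y) ≠ 0
  · obtain ⟨C, Θ, hC, hΘ, hD⟩ := dens hM hε hε2 h
    have hA := (angle_bounds hM hε hε2 h rfl).1
    set A : ℝ := ∑ i, (xx M i y).arg with hAdef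
    have hG := GG_pos
    have hpi := Real.pi_pos
    have hG2 : GG ≤ Real.pi := by
      have hHH : 0 ≤ HH (Real.pi / 2) := HH_nonneg (by positivity) (by linarith [Real.pi_pos])
      unfold GG
      linarith
    have hs0 : 0 < Real.sin (GG / 4) := Real.sin_pos_of_pos_of_lt_pi (by linarith) (by linarith)
    have hD0 : DD M ε 0 y = ∑ S : Finset ι, (C S : ℂ) * cexp (((A / 2 + Θ S : ℝ) : ℂ) * I) := by
      rw [hD 0]
      simp
    have hDk : ∀ k : ℕ, DD M ε k y = (om M y : ℂ) ^ k * cexp ((k * A : ℝ) * I) * DD M ε 0 y := by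
      intro k
      rw [hD k, hD0]
    have hcos : ∀ S, Real.sin (GG / 4) ≤ Real.cos (A / 2 + Θ S) := by
      intro S
      have h1 := total_angle hM hε hε2 hε3 hcard h (hΘ S)
      rw [← hAdef] at h1
      rw [← Real.cos_abs, ← Real.cos_pi_div_two_sub]
      apply Real.cos_le_cos_of_nonneg_of_le_pi (abs_nonneg _) (by linarith) h1
    refine ⟨?_, ?_, ?_⟩
    · have h1 : ‖DD M ε 0 y‖ ≤ ∑ S, C S := by
        rw [hD0]
        refine (norm_sum_le _ _).trans (Finset.sum_le_sum fun S _ => ?_)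
        rw [norm_mul, Complex.norm_exp_ofReal_mul_I, mul_one, norm_real, Real.norm_of_nonneg (hC S)]
      have h2 : (DD M ε 0 y).re = ∑ S, C S * Real.cos (A / 2 + Θ S) := by
        rw [hD0, Complex.re_sum]
        refine Finset.sum_congr rfl fun S _ => ?_
        rw [re_ofReal_mul, exp_ofReal_mul_I_re]
      rw [h2]
      calc Real.sin (GG / 4) * ‖DD M ε 0 y‖ ≤ Real.sin (GG / 4) * ∑ S, C S :=
            mul_le_mul_of_nonneg_left h1 hs0.le
        _ = ∑ S, C S * Real.sin (GG / 4) := by rw [← Finset.sum_mul]; ring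
        _ ≤ ∑ S, C S * Real.cos (A / 2 + Θ S) :=
            Finset.sum_le_sum fun S _ => mul_le_mul_of_nonneg_left (hcos S) (hC S)
    · intro k
      rw [hDk k, norm_mul, norm_mul, Complex.norm_exp_ofReal_mul_I, mul_one, norm_pow, norm_real,
        Real.norm_of_nonneg (om_nonneg M y)]
    · intro k
      have h1 : DD M ε k y - (om M y : ℂ) ^ k * DD M ε 0 y =
          (om M y : ℂ) ^ k * ((cexp ((k * A : ℝ) * I) - 1) * DD M ε 0 y) := by
        rw [hDk k]; ring
      rw [h1, norm_mul, norm_mul, norm_pow, norm_real, Real.norm_of_nonneg (om_nonneg M y)]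
      refine mul_le_mul_of_nonneg_left ?_ (pow_nonneg (om_nonneg M y) k)
      refine mul_le_mul_of_nonneg_right ?_ (norm_nonneg _)
      have h2 : ‖cexp ((k * A : ℝ) * I) - 1‖ ≤ |k * A| := by
        have := Real.norm_exp_I_mul_ofReal_sub_one_le (x := k * A)
        rw [mul_comm] at this
        simpa using this
      refine h2.trans ?_
      rw [abs_mul, Nat.abs_cast]
      refine mul_le_mul_of_nonneg_left (hA.trans ?_) (Nat.cast_nonneg k)
      refine mul_le_mul_of_nonneg_left ?_ hε.le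
      refine mul_le_mul_of_nonneg_right ?_ hpi.le
      exact_mod_cast hcard
  · push Not at h
    obtain ⟨i, hi⟩ := h
    have h0 := fun k => DD_zero (M := M) hε hε2 hi k
    refine ⟨?_, fun k => ?_, fun k => ?_⟩
    · rw [h0]; simp
    · rw [h0, h0]; simp
    · rw [h0, h0]; simp

lemma measurable_om (M : Matrix ι ι ℂ) : Measurable (om M) := by
  unfold om
  refine Finset.measurable_prod _ fun i _ => ?_
  have h1 : Continuous (xx M i) := (contDiff_xx M i (n := 0)).continuous
  exact h1.norm.measurable.div ((continuous_apply i).norm.pow 2).measurable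

lemma DD_nice {M : Matrix ι ι ℂ} (hM : M.PosDef) {ε : ℝ} (hε : 0 < ε) (hε2 : ε ≤ 1 / 2) (k : ℕ) :
    Continuous (DD M ε k) ∧ Integrable (DD M ε k) := by
  have h := integrand_nice hM (cut_fe hε hε2) k
  exact ⟨h.1, h.1.integrable_of_hasCompactSupport h.2⟩

lemma DD_integral {M : Matrix ι ι ℂ} (hM : M.PosDef) {ε : ℝ} (hε : 0 < ε) (hε2 : ε ≤ 1 / 2)
    (k : ℕ) : ∫ y, DD M ε k y = (Real.pi : ℂ) ^ Fintype.card ι * cf M k :=
  cycle hM (cut_fe hε hε2) k

/-- the approximating moments -/
noncomputable def IK (M : Matrix ι ι ℂ) (ε : ℝ) (k : ℕ) : ℝ :=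
  ∫ y, om M y ^ k * (DD M ε 0 y).re

section

variable {M : Matrix ι ι ℂ} (hM : M.PosDef) {ε : ℝ} (hε : 0 < ε) (hε2 : ε ≤ 1 / 2)
    (hε3 : ε ≤ GG / 400) (hcard : Fintype.card ι ≤ 7)

include hM hε hε2 hε3 hcard

lemma re_nonneg' (y : ι → ℂ) : 0 ≤ (DD M ε 0 y).re := by
  have h := (pointwise_facts hM hε hε2 hε3 hcard y).1
  have hG := GG_pos
  have hG2 : GG ≤ Real.pi := by
    have hHH : 0 ≤ HH (Real.pi / 2) := HH_nonneg (by positivity) (by linarith [Real.pi_pos])
    unfold GG
    linarith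
  have hs0 : 0 < Real.sin (GG / 4) := Real.sin_pos_of_pos_of_lt_pi (by linarith) (by linarith)
  exact (mul_nonneg hs0.le (norm_nonneg _)).trans h

lemma integrable_om (k : ℕ) : Integrable fun y => om M y ^ k * (DD M ε 0 y).re := by
  refine (DD_nice hM hε hε2 k).2.norm.mono' ?_ ?_
  · refine Measurable.aestronglyMeasurable ?_
    exact ((measurable_om M).pow_const k).mul
      (Complex.continuous_re.comp (DD_nice hM hε hε2 0).1).measurable
  · refine Filter.Eventually.of_forall fun y => ?_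
    rw [(pointwise_facts hM hε hε2 hε3 hcard y).2.1 k, norm_mul, norm_pow,
      Real.norm_of_nonneg (om_nonneg M y)]
    exact mul_le_mul_of_nonneg_left (Complex.abs_re_le_norm _) (pow_nonneg (om_nonneg M y) k)

lemma IK_nonneg (k : ℕ) : 0 ≤ IK M ε k :=
  integral_nonneg fun y => mul_nonneg (pow_nonneg (om_nonneg M y) k)
    (re_nonneg' hM hε hε2 hε3 hcard y)

/-- the approximation -/
lemma approx (k : ℕ) :
    |Real.pi ^ Fintype.card ι * (cf M k).re - IK M ε k| ≤
      (k * (ε * (7 * Real.pi))) / Real.sin (GG / 4) * IK M ε k := by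
  have hG := GG_pos
  have hG2 : GG ≤ Real.pi := by
    have hHH : 0 ≤ HH (Real.pi / 2) := HH_nonneg (by positivity) (by linarith [Real.pi_pos])
    unfold GG
    linarith
  have hs0 : 0 < Real.sin (GG / 4) := Real.sin_pos_of_pos_of_lt_pi (by linarith) (by linarith)
  have h1 : Real.pi ^ Fintype.card ι * (cf M k).re = ∫ y, (DD M ε k y).re := by
    have h2 := congrArg Complex.re (DD_integral hM hε hε2 k)
    rw [← ofReal_pow, re_ofReal_mul] at h2
    rw [← h2]
    have := reCLM.integral_comp_comm (DD_nice hM hε hε2 k).2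
    simpa using this.symm
  have hi1 : Integrable fun y => (DD M ε k y).re := by
    have := reCLM.integrable_comp (DD_nice hM hε hε2 k).2
    simpa using this
  have hi2 := integrable_om hM hε hε2 hε3 hcard k
  rw [h1, IK, ← integral_sub hi1 hi2, ← integral_const_mul]
  refine (norm_integral_le_integral_norm (μ := volume)
    (fun y => (DD M ε k y).re - om M y ^ k * (DD M ε 0 y).re)).trans ?_
  refine integral_mono_of_nonneg (Filter.Eventually.of_forall fun y => norm_nonneg _)
    (hi2.const_mul _) (Filter.Eventually.of_forall fun y => ?_)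
  simp only
  obtain ⟨p1, p2, p3⟩ := pointwise_facts hM hε hε2 hε3 hcard y
  have e1 : (DD M ε k y).re - om M y ^ k * (DD M ε 0 y).re =
      (DD M ε k y - (om M y : ℂ) ^ k * DD M ε 0 y).re := by
    rw [sub_re, ← ofReal_pow, re_ofReal_mul]
  rw [e1, Real.norm_eq_abs]
  refine (Complex.abs_re_le_norm _).trans ((p3 k).trans ?_)
  have e2 : ‖DD M ε 0 y‖ ≤ (DD M ε 0 y).re / Real.sin (GG / 4) := by
    rw [le_div_iff₀ hs0]
    linarith
  have hpi := Real.pi_pos
  calc om M y ^ k * ((k * (ε * (7 * Real.pi))) * ‖DD M ε 0 y‖) ≤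
      om M y ^ k * ((k * (ε * (7 * Real.pi))) * ((DD M ε 0 y).re / Real.sin (GG / 4))) := by
        refine mul_le_mul_of_nonneg_left (mul_le_mul_of_nonneg_left e2 (by positivity))
          (pow_nonneg (om_nonneg M y) k)
    _ = _ := by ring

/-- Hankel positivity of the approximating moments -/
lemma IK_hankel (s N : ℕ) (c : ℕ → ℝ) :
    0 ≤ ∑ i ∈ Finset.range N, ∑ j ∈ Finset.range N, c i * c j * IK M ε (i + j + s) := by
  have h1 : ∑ i ∈ Finset.range N, ∑ j ∈ Finset.range N, c i * c j * IK M ε (i + j + s) =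
      ∫ y, om M y ^ s * (∑ i ∈ Finset.range N, c i * om M y ^ i) ^ 2 * (DD M ε 0 y).re := by
    have h2 : ∀ y, om M y ^ s * (∑ i ∈ Finset.range N, c i * om M y ^ i) ^ 2 * (DD M ε 0 y).re =
        ∑ i ∈ Finset.range N, ∑ j ∈ Finset.range N, c i * c j *
          (om M y ^ (i + j + s) * (DD M ε 0 y).re) := by
      intro y
      rw [sq, Finset.sum_mul_sum, Finset.mul_sum, Finset.sum_mul]
      refine Finset.sum_congr rfl fun i _ => ?_
      rw [Finset.mul_sum, Finset.sum_mul]
      refine Finset.sum_congr rfl fun j _ => ?_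
      rw [pow_add, pow_add]
      ring
    simp only [h2]
    rw [integral_finsetSum]
    · refine Finset.sum_congr rfl fun i _ => ?_
      rw [integral_finsetSum]
      · refine Finset.sum_congr rfl fun j _ => ?_
        rw [integral_const_mul, IK]
      · intro j _
        exact (integrable_om hM hε hε2 hε3 hcard _).const_mul _
    · intro i _
      refine integrable_finsetSum _ fun j _ => ?_
      exact (integrable_om hM hε hε2 hε3 hcard _).const_mul _
  rw [h1]
  refine integral_nonneg fun y => ?_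
  exact mul_nonneg (mul_nonneg (pow_nonneg (om_nonneg M y) s) (sq_nonneg _))
    (re_nonneg' hM hε hε2 hε3 hcard y)

end

end Pool.Agent.Work.MP_8d2b2d_co.CY
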