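import Pool.Agent.Work.MP_8d2b2d_co.CY.Chain

/-!
# The radial cut-off and its moments
-/

set_option autoImplicit false
set_option linter.unusedSectionVars false
set_option linter.deprecated false

namespace Pool.Agent.Work.MP_8d2b2d_co.CY

open MeasureTheory Complex

/-- smooth step from `0` (for `t ≤ 1/4`) to `1` (for `t ≥ 1`) -/
noncomputable def rho (t : ℝ) : ℝ := Real.smoothTransition ((4 * t - 1) / 3)

lemma contDiff_rho {n : ℕ∞} : ContDiff ℝ n rho := by
  unfold rho
  exact Real.smoothTransition.contDiff.comp (by fun_prop)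

lemma rho_zero {t : ℝ} (ht : t ≤ 1 / 4) : rho t = 0 :=
  Real.smoothTransition.zero_of_nonpos (by linarith)

lemma rho_one {t : ℝ} (ht : 1 ≤ t) : rho t = 1 :=
  Real.smoothTransition.one_of_one_le (by linarith)

lemma hasDerivAt_rho (t : ℝ) : HasDerivAt rho (deriv rho t) t :=
  ((contDiff_rho (n := 1)).differentiable (by norm_num) t).hasDerivAt

/-- the radial cut-off in the plane -/
noncomputable def gg (z : ℂ) : ℂ := (rho (normSq z) : ℂ)

lemma contDiff_gg {n : ℕ∞} : ContDiff ℝ n gg := by
  have h1 : ContDiff ℝ n (fun z : ℂ => normSq z) := by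
    have : (fun z : ℂ => normSq z) = fun z => z.re * z.re + z.im * z.im := by
      funext z; exact normSq_apply z
    rw [this]
    exact (reCLM.contDiff.mul reCLM.contDiff).add (imCLM.contDiff.mul imCLM.contDiff)
  exact ofRealCLM.contDiff.comp (contDiff_rho.comp h1)

lemma gg_ne_zero {z : ℂ} (h : gg z ≠ 0) : 1 / 2 ≤ ‖z‖ := by
  by_contra hcon
  push Not at hcon
  apply h
  have h1 : normSq z ≤ 1 / 4 := by
    rw [normSq_eq_norm_sq]
    nlinarith [norm_nonneg z]
  rw [gg, rho_zero h1, ofReal_zero]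

lemma gg_ne_one {z : ℂ} (h : gg z ≠ 1) : ‖z‖ ≤ 1 := by
  by_contra hcon
  push Not at hcon
  apply h
  have h1 : 1 ≤ normSq z := by
    rw [normSq_eq_norm_sq]
    nlinarith [norm_nonneg z]
  rw [gg, rho_one h1, ofReal_one]

lemma fderiv_gg (z h : ℂ) :
    fderiv ℝ gg z h = ((deriv rho (normSq z) * (2 * (z.re * h.re + z.im * h.im)) : ℝ) : ℂ) := by
  have h1 : HasFDerivAt (fun z : ℂ => z.re * z.re + z.im * z.im)
      (z.re • reCLM + z.re • reCLM + (z.im • imCLM + z.im • imCLM)) z := by
    have hr : HasFDerivAt (fun z : ℂ => z.re) reCLM z := reCLM.hasFDerivAt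
    have hi : HasFDerivAt (fun z : ℂ => z.im) imCLM z := imCLM.hasFDerivAt
    exact (hr.mul hr).add (hi.mul hi)
  have h2 : (fun z : ℂ => z.re * z.re + z.im * z.im) = fun z : ℂ => normSq z := by
    funext z; exact (normSq_apply z).symm
  rw [h2] at h1
  have h3 := (hasDerivAt_rho (normSq z)).comp_hasFDerivAt z h1
  have h4 := (ofRealCLM.hasFDerivAt (x := rho (normSq z))).comp z h3
  have h5 : fderiv ℝ gg z = _ := HasFDerivAt.fderiv h4
  rw [h5]
  simp only [ContinuousLinearMap.comp_apply, ContinuousLinearMap.smul_apply,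
    ContinuousLinearMap.add_apply, reCLM_apply, imCLM_apply, ofRealCLM_apply, smul_eq_mul]
  congr 1
  ring

lemma wb_gg (z : ℂ) : wb gg z = ((deriv rho (normSq z) : ℝ) : ℂ) * z := by
  unfold wb
  rw [fderiv_gg, fderiv_gg]
  simp only [one_re, one_im, I_re, I_im]
  push_cast
  linear_combination ((deriv rho (normSq z) : ℝ) : ℂ) * re_add_im z

/-- the weight whose moments are computed -/
noncomputable def gam (k : ℕ) (z : ℂ) : ℂ := (z ^ (k + 1))⁻¹ * wb gg z

lemma deriv_rho_zero {t : ℝ} (ht : t < 1 / 4) : deriv rho t = 0 := by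
  have h : rho =ᶠ[nhds t] fun _ => (0 : ℝ) := by
    filter_upwards [Iio_mem_nhds ht] with s hs
    exact rho_zero hs.le
  rw [h.deriv_eq, deriv_const]

lemma deriv_rho_one {t : ℝ} (ht : 1 < t) : deriv rho t = 0 := by
  have h : rho =ᶠ[nhds t] fun _ => (1 : ℝ) := by
    filter_upwards [Ioi_mem_nhds ht] with s hs
    exact rho_one (le_of_lt hs)
  rw [h.deriv_eq, deriv_const]

lemma continuous_deriv_rho : Continuous (deriv rho) :=
  (contDiff_rho (n := 1)).continuous_deriv (by norm_num)

lemma integral_rho : ∫ z : ℂ, deriv rho (‖z‖ ^ 2) = Real.pi := by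
  have h := integral_fun_norm_addHaar (volume : Measure ℂ) (fun r : ℝ => deriv rho (r ^ 2))
  rw [h]
  have h1 : ∫ y in Set.Ioi (0 : ℝ), y ^ (Module.finrank ℝ ℂ - 1) • deriv rho (y ^ 2) = 1 / 2 := by
    have e0 : Module.finrank ℝ ℂ - 1 = 1 := by rw [Complex.finrank_real_complex]
    rw [e0]
    have e1 : ∀ y : ℝ, HasDerivAt (fun y => rho (y ^ 2) / 2) (y ^ 1 • deriv rho (y ^ 2)) y := by
      intro y
      have h9 := ((hasDerivAt_rho (y ^ 2)).comp y (hasDerivAt_pow 2 y)).div_const 2
      have h10 : y ^ 1 • deriv rho (y ^ 2) = deriv rho (y ^ 2) * ((2 : ℕ) * y ^ (2 - 1)) / 2 := by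
        rw [smul_eq_mul]
        norm_num
        ring
      rw [h10]
      exact h9
    have e2 : Filter.Tendsto (fun y : ℝ => rho (y ^ 2) / 2) Filter.atTop (nhds (1 / 2)) := by
      refine tendsto_const_nhds.congr' ?_
      filter_upwards [Filter.eventually_ge_atTop (1 : ℝ)] with y hy
      rw [rho_one (by nlinarith)]
    have e3 : IntegrableOn (fun y : ℝ => y ^ 1 • deriv rho (y ^ 2)) (Set.Ioi 0) := by
      have hc : Continuous (fun y : ℝ => y ^ 1 • deriv rho (y ^ 2)) :=
        (continuous_pow 1).smul (continuous_deriv_rho.comp (continuous_pow 2))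
      refine (hc.integrable_of_hasCompactSupport ?_).integrableOn
      refine HasCompactSupport.intro (isCompact_Icc (a := (-1 : ℝ)) (b := 1)) fun y hy => ?_
      have : 1 < y ^ 2 := by
        by_contra hcon
        push Not at hcon
        exact hy (abs_le.1 ((sq_le_one_iff_abs_le_one y).1 hcon))
      rw [deriv_rho_one this, smul_zero]
    rw [integral_Ioi_of_hasDerivAt_of_tendsto' (fun y _ => e1 y) e3 e2]
    rw [rho_zero (by norm_num)]
    norm_num
  rw [h1, Complex.finrank_real_complex, measureReal_def, Complex.volume_ball]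
  simp
  ring

lemma gam_eq (k : ℕ) (z : ℂ) : gam k z = (z ^ k)⁻¹ * ((deriv rho (‖z‖ ^ 2) : ℝ) : ℂ) := by
  rw [gam, wb_gg, normSq_eq_norm_sq]
  by_cases hz : z = 0
  · subst hz
    have : deriv rho (‖(0 : ℂ)‖ ^ 2) = 0 := deriv_rho_zero (by norm_num)
    rw [this]
    simp
  · rw [pow_succ, mul_inv]
    field_simp

/-- moments of the weight -/
theorem integral_gam (k N : ℕ) :
    ∫ z : ℂ, z ^ N * gam k z = if N = k then (Real.pi : ℂ) else 0 := by
  by_cases h : N = k
  · subst h
    rw [if_pos rfl, ← integral_rho, ← integral_complex_ofReal]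
    refine integral_congr_ae (Filter.Eventually.of_forall fun z => ?_)
    simp only
    rw [gam_eq]
    by_cases hz : z = 0
    · subst hz
      have : deriv rho (‖(0 : ℂ)‖ ^ 2) = 0 := deriv_rho_zero (by norm_num)
      rw [this]
      simp
    · field_simp
  · rw [if_neg h]
    set f : ℂ → ℂ := fun z => z ^ N * gam k z with hf
    set θ : ℝ := Real.pi / ((N : ℝ) - k) with hθ
    have hba : (N : ℝ) - k ≠ 0 := by
      intro h0
      apply h
      have : (N : ℝ) = k := by linarith
      exact_mod_cast this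
    set u : Circle := Circle.exp θ with hu
    have h1 : ∫ z, f ((rotation u) z) = ∫ z, f z :=
      (rotation u).measurePreserving.integral_comp
        (rotation u).toHomeomorph.measurableEmbedding f
    have h2 : ∀ z, f ((rotation u) z) = -f z := by
      intro z
      have hrot : (rotation u) z = u * z := rotation_apply u z
      simp only [hf]
      rw [gam_eq, gam_eq, LinearIsometryEquiv.norm_map, hrot, mul_pow, mul_pow, mul_inv]
      have h3 : (u : ℂ) ^ N * ((u : ℂ) ^ k)⁻¹ = -1 := by
        rw [hu, Circle.coe_exp, ← Complex.exp_nat_mul, ← Complex.exp_nat_mul, ← Complex.exp_neg,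
          ← Complex.exp_add]
        have h4 : (N : ℂ) * ((θ : ℂ) * I) + -((k : ℂ) * ((θ : ℂ) * I)) = Real.pi * I := by
          have h5 : ((N : ℂ) - k) * (θ : ℂ) = Real.pi := by
            rw [hθ]
            have h6 : ((N : ℂ) - k) ≠ 0 := by exact_mod_cast hba
            push_cast
            field_simp
          linear_combination I * h5
        rw [h4, Complex.exp_pi_mul_I]
      linear_combination (z ^ N * ((z ^ k)⁻¹ * ((deriv rho (‖z‖ ^ 2) : ℝ) : ℂ))) * h3
    simp only [h2] at h1
    rw [integral_neg] at h1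
    have h3 : (2 : ℂ) * ∫ z, f z = 0 := by linear_combination -h1
    exact (mul_eq_zero.1 h3).resolve_left two_ne_zero

end Pool.Agent.Work.MP_8d2b2d_co.CY
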