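import Pool.Agent.Work.MP_8d2b2d_co.CY.Eval

/-!
# Replacing the radial cut-offs `gg(y_i)` by `f(x_i)`
-/

set_option autoImplicit false
set_option linter.unusedSectionVars false
set_option linter.deprecated false

namespace Pool.Agent.Work.MP_8d2b2d_co.CY

open MeasureTheory Complex MvPolynomial
open scoped ComplexOrder

variable {ι : Type} [Fintype ι] [DecidableEq ι]

/-- smooth cut-offs in the `x` plane -/
structure Cut (f : ℂ → ℂ) : Prop where
  smooth : ContDiff ℝ 2 f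
  zero : ∀ x, f x ≠ 0 → 1 / 2 ≤ ‖x‖
  one : ∀ x, f x ≠ 1 → x.re ≤ 2

lemma Cut.fderiv_zero {f : ℂ → ℂ} (hf : Cut f) {x : ℂ} (hx : ‖x‖ < 1 / 2 ∨ 2 < x.re) :
    fderiv ℝ f x = 0 := by
  rcases hx with hx | hx
  · have h : f =ᶠ[nhds x] fun _ => (0 : ℂ) := by
      filter_upwards [(isOpen_lt continuous_norm continuous_const).mem_nhds hx] with z hz
      by_contra hcon
      exact absurd (hf.zero z hcon) (not_le.2 hz)
    rw [h.fderiv_eq, fderiv_fun_const, Pi.zero_apply]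
  · have h : f =ᶠ[nhds x] fun _ => (1 : ℂ) := by
      filter_upwards [(isOpen_lt continuous_const Complex.continuous_re).mem_nhds hx] with z hz
      by_contra hcon
      exact absurd (hf.one z hcon) (not_le.2 hz)
    rw [h.fderiv_eq, fderiv_fun_const, Pi.zero_apply]

lemma Cut.of_wd {f : ℂ → ℂ} (hf : Cut f) {x : ℂ} (hx : wd f x ≠ 0 ∨ wb f x ≠ 0) :
    1 / 2 ≤ ‖x‖ ∧ x.re ≤ 2 := by
  by_contra hcon
  have h : ‖x‖ < 1 / 2 ∨ 2 < x.re := by
    by_contra h2
    push Not at h2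
    exact hcon h2
  have h0 := hf.fderiv_zero h
  rcases hx with hx | hx
  · apply hx; unfold wd; rw [h0]; simp
  · apply hx; unfold wb; rw [h0]; simp

lemma Cut.of_row {f : ℂ → ℂ} (hf : Cut f) {M : Matrix ι ι ℂ} {i k : ι} {y : ι → ℂ}
    (h : dbar k (fun y => f (xx M i y)) y ≠ 0) :
    1 / 2 ≤ ‖xx M i y‖ ∧ (xx M i y).re ≤ 2 := by
  apply hf.of_wd
  by_contra hcon
  push Not at hcon
  apply h
  rw [dbar_comp_xx M i k (hf.smooth.differentiable (by norm_num) _), hcon.1, hcon.2]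
  ring

lemma gg_row {i k : ι} {y : ι → ℂ} (h : dbar k (fun y : ι → ℂ => gg (y i)) y ≠ 0) :
    1 / 2 ≤ ‖y i‖ ∧ ‖y i‖ ≤ 1 := by
  rw [dbar_comp_coord i k ((contDiff_gg (n := 1)).differentiable (by norm_num) _)] at h
  have h2 : wb gg (y i) ≠ 0 := by
    intro h0
    apply h
    rw [h0, ite_self]
  constructor
  · by_contra hcon
    exact h2 (wb_gg_zero (not_le.1 hcon))
  · by_contra hcon
    exact h2 (wb_gg_zero' (not_le.1 hcon))

/-- bound for the entries of `M y` -/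
noncomputable def CM (M : Matrix ι ι ℂ) : ℝ := ∑ i, ∑ l, ‖M i l‖

lemma CM_nonneg (M : Matrix ι ι ℂ) : 0 ≤ CM M :=
  Finset.sum_nonneg fun _ _ => Finset.sum_nonneg fun _ _ => norm_nonneg _

lemma norm_row_le (M : Matrix ι ι ℂ) (i : ι) (y : ι → ℂ) :
    ‖∑ l, M i l * y l‖ ≤ CM M * ‖y‖ := by
  have h1 : ‖∑ l, M i l * y l‖ ≤ (∑ l, ‖M i l‖) * ‖y‖ := by
    refine (norm_sum_le _ _).trans ?_
    rw [Finset.sum_mul]
    refine Finset.sum_le_sum fun l _ => ?_
    rw [norm_mul]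
    exact mul_le_mul_of_nonneg_left (norm_le_pi_norm y l) (norm_nonneg _)
  refine h1.trans (mul_le_mul_of_nonneg_right ?_ (norm_nonneg _))
  exact Finset.single_le_sum (f := fun i => ∑ l, ‖M i l‖)
    (fun _ _ => Finset.sum_nonneg fun _ _ => norm_nonneg _) (Finset.mem_univ i)

lemma norm_xx (M : Matrix ι ι ℂ) (i : ι) (y : ι → ℂ) :
    ‖xx M i y‖ ≤ ‖y i‖ * (CM M * ‖y‖) := by
  rw [xx, norm_mul, RCLike.norm_conj]
  exact mul_le_mul_of_nonneg_left (norm_row_le M i y) (norm_nonneg _)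

lemma sum_xx (M : Matrix ι ι ℂ) (y : ι → ℂ) : ∑ i, xx M i y = star y ⬝ᵥ (M.mulVec y) := by
  rw [dotProduct]
  refine Finset.sum_congr rfl fun i _ => ?_
  rfl

/-- coercivity of a positive definite form -/
lemma exists_coer {M : Matrix ι ι ℂ} (hM : M.PosDef) :
    ∃ c : ℝ, 0 < c ∧ ∀ y : ι → ℂ, c * ‖y‖ ^ 2 ≤ (∑ i, xx M i y).re := by
  have hpos : ∀ y : ι → ℂ, y ≠ 0 → 0 < (∑ i, xx M i y).re := by
    intro y hy
    rw [sum_xx]
    have := hM.dotProduct_mulVec_pos hy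
    exact (Complex.lt_def.1 this).1
  have hcont : Continuous fun y : ι → ℂ => (∑ i, xx M i y).re := by
    refine Complex.continuous_re.comp (continuous_finsetSum _ fun i _ => ?_)
    exact (contDiff_xx M i (n := 0)).continuous
  by_cases hne : (Metric.sphere (0 : ι → ℂ) 1).Nonempty
  · obtain ⟨y0, hy0, hmin⟩ := (isCompact_sphere (0 : ι → ℂ) 1).exists_isMinOn hne hcont.continuousOn
    have hy0' : ‖y0‖ = 1 := by simpa using hy0
    refine ⟨(∑ i, xx M i y0).re, hpos y0 (fun h => by rw [h, norm_zero] at hy0'; norm_num at hy0'),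
      fun y => ?_⟩
    by_cases hy : y = 0
    · subst hy
      have : (∑ i, xx M i (0 : ι → ℂ)) = 0 := by
        refine Finset.sum_eq_zero fun i _ => ?_
        simp [xx]
      rw [this]
      simp
    · have hn : 0 < ‖y‖ := norm_pos_iff.2 hy
      set u : ι → ℂ := fun i => ((‖y‖⁻¹ : ℝ) : ℂ) * y i with hu
      have hu' : u = (‖y‖⁻¹ : ℝ) • y := by
        funext i
        rw [hu, Pi.smul_apply, Complex.real_smul]
      have hus : u ∈ Metric.sphere (0 : ι → ℂ) 1 := by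
        rw [mem_sphere_zero_iff_norm, hu', norm_smul, norm_inv, norm_norm, inv_mul_cancel₀ hn.ne']
      have h1 : (∑ i, xx M i y0).re ≤ (∑ i, xx M i u).re := hmin hus
      have h2 : ∀ i, xx M i u = ((‖y‖⁻¹ ^ 2 : ℝ) : ℂ) * xx M i y := by
        intro i
        rw [xx, xx, hu]
        simp only [map_mul, conj_ofReal]
        have : ∑ l, M i l * (((‖y‖⁻¹ : ℝ) : ℂ) * y l) = ((‖y‖⁻¹ : ℝ) : ℂ) * ∑ l, M i l * y l := by
          rw [Finset.mul_sum]
          refine Finset.sum_congr rfl fun l _ => ?_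
          ring
        rw [this]
        push_cast
        ring
      have h3 : (∑ i, xx M i u).re = ‖y‖⁻¹ ^ 2 * (∑ i, xx M i y).re := by
        rw [Finset.sum_congr rfl fun i _ => h2 i, ← Finset.mul_sum, re_ofReal_mul]
      rw [h3] at h1
      have h4 : ‖y‖⁻¹ ^ 2 * ‖y‖ ^ 2 = 1 := by
        rw [← mul_pow, inv_mul_cancel₀ hn.ne', one_pow]
      calc (∑ i, xx M i y0).re * ‖y‖ ^ 2 ≤ ‖y‖⁻¹ ^ 2 * (∑ i, xx M i y).re * ‖y‖ ^ 2 :=
            mul_le_mul_of_nonneg_right h1 (by positivity)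
        _ = (∑ i, xx M i y).re := by linear_combination (∑ i, xx M i y).re * h4
  · refine ⟨1, one_pos, fun y => ?_⟩
    have hy : y = 0 := by
      by_contra hy
      apply hne
      have hn : 0 < ‖y‖ := norm_pos_iff.2 hy
      refine ⟨(‖y‖⁻¹ : ℝ) • y, ?_⟩
      rw [mem_sphere_zero_iff_norm, norm_smul, norm_inv, norm_norm, inv_mul_cancel₀ hn.ne']
    subst hy
    have : (∑ i, xx M i (0 : ι → ℂ)) = 0 := by
      refine Finset.sum_eq_zero fun i _ => ?_
      simp [xx]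
    rw [this]
    simp

/-- a priori bound on the supports -/
lemma exists_bound {M : Matrix ι ι ℂ} (hM : M.PosDef) :
    ∃ R : ℝ, 0 < R ∧ ∀ y : ι → ℂ, (∀ i, (xx M i y).re ≤ 2 + CM M * ‖y‖) → ‖y‖ ≤ R := by
  obtain ⟨c, hc, hcoer⟩ := exists_coer hM
  set n : ℝ := (Fintype.card ι : ℝ) with hn
  have hn0 : 0 ≤ n := Nat.cast_nonneg _
  refine ⟨max 1 (n * (2 + CM M) / c), lt_of_lt_of_le one_pos (le_max_left _ _), fun y hy => ?_⟩
  by_contra hcon
  push Not at hcon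
  have h1 : 1 < ‖y‖ := (le_max_left _ _).trans_lt hcon
  have h2 : n * (2 + CM M) / c < ‖y‖ := (le_max_right _ _).trans_lt hcon
  have h3 : (∑ i, xx M i y).re ≤ n * (2 + CM M * ‖y‖) := by
    rw [Complex.re_sum]
    refine (Finset.sum_le_sum fun i _ => hy i).trans ?_
    rw [Finset.sum_const, nsmul_eq_mul, Finset.card_univ]
  have h4 := (hcoer y).trans h3
  have h5 : n * (2 + CM M * ‖y‖) ≤ n * (2 + CM M) * ‖y‖ := by
    have := CM_nonneg M
    have h6 : 2 + CM M * ‖y‖ ≤ (2 + CM M) * ‖y‖ := by nlinarith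
    calc n * (2 + CM M * ‖y‖) ≤ n * ((2 + CM M) * ‖y‖) := mul_le_mul_of_nonneg_left h6 hn0
      _ = _ := by ring
  rw [div_lt_iff₀ hc] at h2
  nlinarith

end Pool.Agent.Work.MP_8d2b2d_co.CY
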