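import Mathlib

/-!
# The function `v(x) = |x| sinc(arg x)` and its cut-offs
-/

set_option autoImplicit false
set_option linter.unusedSectionVars false
set_option linter.deprecated false

namespace Pool.Agent.Work.MP_8d2b2d_co.CY

open Complex

lemma analyticAt_sinc (t : ℝ) : AnalyticAt ℝ Real.sinc t := by
  rw [Real.sinc_eq_dslope]
  by_cases h : t = 0
  · subst h
    obtain ⟨p, hp⟩ : AnalyticAt ℝ Real.sin 0 := Real.analyticAt_sin
    exact ⟨_, hp.has_fpower_series_dslope_fslope⟩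
  · have h1 : AnalyticAt ℝ (fun s : ℝ => Real.sin s / s) t :=
      Real.analyticAt_sin.div analyticAt_id h
    refine h1.congr ?_
    filter_upwards [isOpen_ne.mem_nhds h] with s hs
    have hs' : s ≠ 0 := hs
    rw [← Real.sinc_eq_dslope, Real.sinc_of_ne_zero hs']

lemma contDiff_sinc {n : WithTop ℕ∞} : ContDiff ℝ n Real.sinc :=
  contDiff_iff_contDiffAt.2 fun t => (analyticAt_sinc t).contDiffAt

lemma hasDerivAt_sinc (t : ℝ) : HasDerivAt Real.sinc (deriv Real.sinc t) t :=
  ((contDiff_sinc (n := 1)).differentiable (by norm_num) t).hasDerivAt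

lemma deriv_sinc_of_ne {t : ℝ} (h : t ≠ 0) :
    deriv Real.sinc t = (t * Real.cos t - Real.sin t) / t ^ 2 := by
  have h1 : HasDerivAt (fun s : ℝ => Real.sin s / s) ((Real.cos t * t - Real.sin t * 1) / t ^ 2) t :=
    (Real.hasDerivAt_sin t).div (hasDerivAt_id t) h
  have h2 : Real.sinc =ᶠ[nhds t] fun s : ℝ => Real.sin s / s := by
    filter_upwards [isOpen_ne.mem_nhds h] with s hs
    exact Real.sinc_of_ne_zero hs
  rw [h2.deriv_eq, h1.deriv]
  ring

lemma deriv_sinc_neg (t : ℝ) : deriv Real.sinc (-t) = - deriv Real.sinc t := by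
  have h1 := (hasDerivAt_sinc (-t)).comp t (hasDerivAt_neg t)
  have h2 : Real.sinc ∘ Neg.neg = Real.sinc := by
    funext s
    exact Real.sinc_neg s
  rw [h2] at h1
  have := h1.unique (hasDerivAt_sinc t)
  linarith

lemma deriv_sinc_zero : deriv Real.sinc 0 = 0 := by
  have := deriv_sinc_neg 0
  rw [neg_zero] at this
  linarith

lemma sinc_mul (t : ℝ) : Real.sinc t * t = Real.sin t := by
  by_cases h : t = 0
  · subst h; simp
  · rw [Real.sinc_of_ne_zero h]; field_simp

lemma sinc_pos {t : ℝ} (h1 : -Real.pi < t) (h2 : t < Real.pi) : 0 < Real.sinc t := by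
  rcases lt_trichotomy t 0 with h | h | h
  · rw [← Real.sinc_neg, Real.sinc_of_ne_zero (by linarith)]
    exact div_pos (Real.sin_pos_of_pos_of_lt_pi (by linarith) (by linarith)) (by linarith)
  · subst h; simp
  · rw [Real.sinc_of_ne_zero h.ne']
    exact div_pos (Real.sin_pos_of_pos_of_lt_pi h h2) h

lemma sinc_nonneg {t : ℝ} (h1 : -Real.pi ≤ t) (h2 : t ≤ Real.pi) : 0 ≤ Real.sinc t := by
  rcases lt_trichotomy t 0 with h | h | h
  · rw [← Real.sinc_neg, Real.sinc_of_ne_zero (by linarith)]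
    exact div_nonneg (Real.sin_nonneg_of_nonneg_of_le_pi (by linarith) (by linarith)) (by linarith)
  · subst h; simp
  · rw [Real.sinc_of_ne_zero h.ne']
    exact div_nonneg (Real.sin_nonneg_of_nonneg_of_le_pi h.le h2) h.le

/-- `t cos t ≤ sin t` for `0 ≤ t ≤ π` -/
lemma mul_cos_le_sin {t : ℝ} (h1 : 0 ≤ t) (h2 : t ≤ Real.pi) : t * Real.cos t ≤ Real.sin t := by
  rcases le_or_gt (Real.pi / 2) t with h | h
  · have h3 : Real.cos t ≤ 0 := Real.cos_nonpos_of_pi_div_two_le_of_le h (by linarith)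
    have h4 : 0 ≤ Real.sin t := Real.sin_nonneg_of_nonneg_of_le_pi h1 h2
    nlinarith
  · have h3 : 0 < Real.cos t := Real.cos_pos_of_mem_Ioo ⟨by linarith [Real.pi_pos], h⟩
    have h4 : t ≤ Real.tan t := Real.le_tan h1 h
    rw [Real.tan_eq_sin_div_cos, le_div_iff₀ h3] at h4
    exact h4

lemma cos_le_sinc {t : ℝ} (h1 : -Real.pi ≤ t) (h2 : t ≤ Real.pi) : Real.cos t ≤ Real.sinc t := by
  wlog h : 0 ≤ t with H
  · have := H (t := -t) (by linarith) (by linarith) (by linarith)
    rwa [Real.cos_neg, Real.sinc_neg] at this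
  rcases h.eq_or_lt with h | h
  · rw [← h]; simp
  · rw [Real.sinc_of_ne_zero h.ne', le_div_iff₀ h, mul_comm]
    exact mul_cos_le_sin h.le h2

/-- the function whose level set `{v = 1}` is the curve `Γ` -/
noncomputable def vv (x : ℂ) : ℝ := ‖x‖ * Real.sinc x.arg

lemma vv_nonneg (x : ℂ) : 0 ≤ vv x :=
  mul_nonneg (norm_nonneg _) (sinc_nonneg (Complex.neg_pi_lt_arg x).le (Complex.arg_le_pi x))

lemma vv_le_norm (x : ℂ) : vv x ≤ ‖x‖ := by
  have := Real.sinc_le_one x.arg
  unfold vv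
  nlinarith [norm_nonneg x]

lemma re_le_vv (x : ℂ) : x.re ≤ vv x := by
  have h1 : x.re = ‖x‖ * Real.cos x.arg := (Complex.norm_mul_cos_arg x).symm
  rw [h1, vv]
  exact mul_le_mul_of_nonneg_left (cos_le_sinc (Complex.neg_pi_lt_arg x).le (Complex.arg_le_pi x))
    (norm_nonneg _)

lemma vv_mul_arg (x : ℂ) : vv x * x.arg = x.im := by
  rw [vv, mul_assoc, sinc_mul, Complex.norm_mul_sin_arg]

lemma vv_of_not_slit {x : ℂ} (h : x ∉ slitPlane) : vv x = 0 := by
  have h1 : x.re ≤ 0 ∧ x.im = 0 := by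
    rw [Complex.mem_slitPlane_iff, not_or, not_lt, not_not] at h
    exact h
  rcases h1.1.eq_or_lt with h2 | h2
  · have : x = 0 := Complex.ext h2 h1.2
    rw [this]; simp [vv]
  · have h3 : x.arg = Real.pi := Complex.arg_eq_pi_iff.2 ⟨h2, h1.2⟩
    rw [vv, h3, Real.sinc_of_ne_zero Real.pi_ne_zero, Real.sin_pi]
    simp

/-- `v` is small near the cut -/
lemma vv_small {x : ℂ} (h : x ∉ slitPlane) : ∀ᶠ z in nhds x, vv z < 1 / 2 := by
  have h1 : x.re ≤ 0 ∧ x.im = 0 := by
    rw [Complex.mem_slitPlane_iff, not_or, not_lt, not_not] at h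
    exact h
  rcases h1.1.eq_or_lt with h2 | h2
  · have : x = 0 := Complex.ext h2 h1.2
    rw [this]
    filter_upwards [Metric.ball_mem_nhds (0 : ℂ) (ε := 1 / 2) (by norm_num)] with z hz
    exact (vv_le_norm z).trans_lt (by simpa using hz)
  · have e1 : ∀ᶠ z : ℂ in nhds x, z.re < 0 :=
      (isOpen_lt Complex.continuous_re continuous_const).mem_nhds h2
    have e2 : ∀ᶠ z : ℂ in nhds x, |z.im| < 1 / 2 :=
      (isOpen_lt Complex.continuous_im.abs continuous_const).mem_nhds (by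
        simp [h1.2])
    filter_upwards [e1, e2] with z h3 h4
    have h5 : Real.pi / 2 < |z.arg| := by
      by_contra hcon
      rw [not_lt, Complex.abs_arg_le_pi_div_two_iff] at hcon
      linarith
    have h6 : vv z * |z.arg| = |z.im| := by
      rw [← vv_mul_arg z, abs_mul, abs_of_nonneg (vv_nonneg z)]
    have h7 := Real.pi_gt_three
    nlinarith [vv_nonneg z]

end Pool.Agent.Work.MP_8d2b2d_co.CY
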