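import Pool.Agent.Work.MP_8d2b2d_co.CY.Dbar

/-!
# Stokes' theorem for Jacobian determinants `det(∂F_i/∂ȳ_k)`
-/

set_option autoImplicit false
set_option linter.unusedSectionVars false

namespace Pool.Agent.Work.MP_8d2b2d_co.CY

open MeasureTheory Complex Equiv

variable {ι : Type} [Fintype ι] [DecidableEq ι]

/-- the matrix `∂F_i/∂ȳ_k` -/
noncomputable def JJ (F : ι → (ι → ℂ) → ℂ) (y : ι → ℂ) : Matrix ι ι ℂ :=
  Matrix.of fun i k => dbar k (F i) y

lemma det_JJ (F : ι → (ι → ℂ) → ℂ) (y : ι → ℂ) :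
    (JJ F y).det = ∑ σ : Perm ι, (Perm.sign σ : ℂ) * ∏ i, dbar (σ i) (F i) y := by
  rw [← Matrix.det_transpose, Matrix.det_apply']
  rfl

/-- the product over the rows other than `i0` -/
noncomputable def Pr (F : ι → (ι → ℂ) → ℂ) (i0 : ι) (σ : Perm ι) (y : ι → ℂ) : ℂ :=
  ∏ i ∈ Finset.univ.erase i0, dbar (σ i) (F i) y

lemma contDiff_Pr {F : ι → (ι → ℂ) → ℂ} (hF : ∀ i, ContDiff ℝ 2 (F i)) (i0 : ι) (σ : Perm ι) :
    ContDiff ℝ 1 (Pr F i0 σ) := by
  unfold Pr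
  exact contDiff_prod fun i _ => contDiff_dbar (σ i) (hF i)

/-- the antisymmetry behind Piola's identity -/
lemma antisymm {F : ι → (ι → ℂ) → ℂ} (hF : ∀ i, ContDiff ℝ 2 (F i)) {i0 i1 : ι} (h : i1 ≠ i0)
    (y : ι → ℂ) :
    ∑ σ : Perm ι, (Perm.sign σ : ℂ) *
      ((∏ i ∈ (Finset.univ.erase i0).erase i1, dbar (σ i) (F i) y) *
        dbar (σ i0) (dbar (σ i1) (F i1)) y) = 0 := by
  set T : Perm ι → ℂ := fun σ => (Perm.sign σ : ℂ) *
      ((∏ i ∈ (Finset.univ.erase i0).erase i1, dbar (σ i) (F i) y) *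
        dbar (σ i0) (dbar (σ i1) (F i1)) y) with hT
  have h1 : ∀ σ : Perm ι, T (σ * swap i0 i1) = - T σ := by
    intro σ
    simp only [hT]
    have e1 : ∏ i ∈ (Finset.univ.erase i0).erase i1, dbar ((σ * swap i0 i1) i) (F i) y =
        ∏ i ∈ (Finset.univ.erase i0).erase i1, dbar (σ i) (F i) y := by
      refine Finset.prod_congr rfl fun i hi => ?_
      rw [Finset.mem_erase, Finset.mem_erase] at hi
      rw [Perm.mul_apply, swap_apply_of_ne_of_ne hi.2.1 hi.1]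
    rw [e1, Perm.mul_apply, Perm.mul_apply, swap_apply_left, swap_apply_right,
      dbar_comm (σ i1) (σ i0) (hF i1) y, Perm.sign_mul, Perm.sign_swap (Ne.symm h)]
    push_cast
    ring
  have h2 : ∑ σ : Perm ι, T σ = ∑ σ : Perm ι, T (σ * swap i0 i1) :=
    (Equiv.sum_comp (Equiv.mulRight (swap i0 i1)) T).symm
  have h3 : ∑ σ : Perm ι, T σ = - ∑ σ : Perm ι, T σ := by
    conv_lhs => rw [h2]
    rw [← Finset.sum_neg_distrib]
    exact Finset.sum_congr rfl fun σ _ => h1 σ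
  have h4 : (2 : ℂ) * ∑ σ : Perm ι, T σ = 0 := by linear_combination h3
  simpa using h4

/-- the pointwise identity -/
lemma pointwise {F : ι → (ι → ℂ) → ℂ} (hF : ∀ i, ContDiff ℝ 2 (F i)) (i0 : ι)
    {W : (ι → ℂ) → ℂ} (hW : ContDiff ℝ 1 W) (y : ι → ℂ)
    (hy : F i0 y ≠ 0 → (∀ i, i ≠ i0 → ∃ k, dbar k (F i) y ≠ 0) → ∀ j, dbar j W y = 0) :
    ∑ σ : Perm ι, (Perm.sign σ : ℂ) *
      dbar (σ i0) (fun y => W y * (F i0 y * Pr F i0 σ y)) y = W y * (JJ F y).det := by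
  have hd1 : ∀ i, DifferentiableAt ℝ (F i) y := fun i => (hF i).differentiable (by norm_num) y
  have hdW : DifferentiableAt ℝ W y := hW.differentiable (by norm_num) y
  have hdP : ∀ σ, DifferentiableAt ℝ (Pr F i0 σ) y :=
    fun σ => (contDiff_Pr hF i0 σ).differentiable (by norm_num) y
  have key : ∀ σ : Perm ι, dbar (σ i0) (fun y => W y * (F i0 y * Pr F i0 σ y)) y =
      W y * ∏ i, dbar (σ i) (F i) y + W y * F i0 y *
        ∑ i1 ∈ Finset.univ.erase i0, (∏ i ∈ (Finset.univ.erase i0).erase i1,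
          dbar (σ i) (F i) y) * dbar (σ i0) (dbar (σ i1) (F i1)) y := by
    intro σ
    have hdFP : DifferentiableAt ℝ (fun y => F i0 y * Pr F i0 σ y) y := (hd1 i0).mul (hdP σ)
    rw [dbar_mul _ hdW hdFP, dbar_mul _ (hd1 i0) (hdP σ)]
    have e1 : dbar (σ i0) (Pr F i0 σ) y = ∑ i1 ∈ Finset.univ.erase i0,
        (∏ i ∈ (Finset.univ.erase i0).erase i1, dbar (σ i) (F i) y) *
          dbar (σ i0) (dbar (σ i1) (F i1)) y :=
      dbar_prod (σ i0) (Finset.univ.erase i0) (f := fun i => dbar (σ i) (F i))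
        (fun i _ => (contDiff_dbar (σ i) (hF i)).differentiable (by norm_num) y)
    have e2 : F i0 y * Pr F i0 σ y * dbar (σ i0) W y = 0 := by
      by_cases h0 : F i0 y = 0
      · rw [h0, zero_mul, zero_mul]
      by_cases h1 : Pr F i0 σ y = 0
      · rw [h1, mul_zero, zero_mul]
      rw [hy h0 _ (σ i0), mul_zero]
      intro i hi
      refine ⟨σ i, fun hcon => h1 ?_⟩
      unfold Pr
      exact Finset.prod_eq_zero (Finset.mem_erase.2 ⟨hi, Finset.mem_univ i⟩) hcon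
    have e3 : ∏ i, dbar (σ i) (F i) y = Pr F i0 σ y * dbar (σ i0) (F i0) y := by
      unfold Pr
      exact (Finset.prod_erase_mul _ _ (Finset.mem_univ i0)).symm
    rw [e1, e2, e3]
    ring
  rw [Finset.sum_congr rfl fun σ _ => by rw [key σ]]
  simp only [mul_add, Finset.sum_add_distrib]
  have h1 : ∑ σ : Perm ι, (Perm.sign σ : ℂ) * (W y * ∏ i, dbar (σ i) (F i) y) =
      W y * (JJ F y).det := by
    rw [det_JJ, Finset.mul_sum]
    refine Finset.sum_congr rfl fun σ _ => ?_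
    ring
  have h2 : ∑ σ : Perm ι, (Perm.sign σ : ℂ) * (W y * F i0 y *
        ∑ i1 ∈ Finset.univ.erase i0, (∏ i ∈ (Finset.univ.erase i0).erase i1,
          dbar (σ i) (F i) y) * dbar (σ i0) (dbar (σ i1) (F i1)) y) = 0 := by
    have e1 : ∀ σ : Perm ι, (Perm.sign σ : ℂ) * (W y * F i0 y *
        ∑ i1 ∈ Finset.univ.erase i0, (∏ i ∈ (Finset.univ.erase i0).erase i1,
          dbar (σ i) (F i) y) * dbar (σ i0) (dbar (σ i1) (F i1)) y) =
        ∑ i1 ∈ Finset.univ.erase i0, W y * F i0 y * ((Perm.sign σ : ℂ) *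
          ((∏ i ∈ (Finset.univ.erase i0).erase i1,
          dbar (σ i) (F i) y) * dbar (σ i0) (dbar (σ i1) (F i1)) y)) := by
      intro σ
      rw [Finset.mul_sum, Finset.mul_sum]
      refine Finset.sum_congr rfl fun i1 _ => ?_
      ring
    rw [Finset.sum_congr rfl fun σ _ => e1 σ, Finset.sum_comm]
    refine Finset.sum_eq_zero fun i1 hi1 => ?_
    rw [← Finset.mul_sum, antisymm hF (Finset.ne_of_mem_erase hi1) y, mul_zero]
  rw [h1, h2, add_zero]

/-- **Stokes' theorem**: the integral of `W det(∂F_i/∂ȳ_k)` vanishes if the part of the support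
where `F_{i0}` and the other rows do not vanish is bounded and `W` is holomorphic there. -/
theorem stokes {F : ι → (ι → ℂ) → ℂ} (hF : ∀ i, ContDiff ℝ 2 (F i)) (i0 : ι)
    {W : (ι → ℂ) → ℂ} (hW : ContDiff ℝ 1 W) {R : ℝ}
    (hR : ∀ y, F i0 y ≠ 0 → (∀ i, i ≠ i0 → ∃ k, dbar k (F i) y ≠ 0) →
      ‖y‖ ≤ R ∧ ∀ j, dbar j W y = 0) :
    ∫ y, W y * (JJ F y).det = 0 := by
  have hcd : ∀ σ, ContDiff ℝ 1 (fun y => W y * (F i0 y * Pr F i0 σ y)) := fun σ =>
    hW.mul (((hF i0).of_le (by norm_num)).mul (contDiff_Pr hF i0 σ))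
  have hcs : ∀ σ, HasCompactSupport (fun y => W y * (F i0 y * Pr F i0 σ y)) := by
    intro σ
    refine HasCompactSupport.intro (isCompact_closedBall (0 : ι → ℂ) R) fun y hy => ?_
    by_contra hne
    apply hy
    rw [mem_closedBall_zero_iff]
    have h0 : F i0 y ≠ 0 := fun h => hne (by rw [h]; ring)
    have h1 : Pr F i0 σ y ≠ 0 := fun h => hne (by rw [h]; ring)
    refine (hR y h0 fun i hi => ⟨σ i, fun hcon => h1 ?_⟩).1
    unfold Pr
    exact Finset.prod_eq_zero (Finset.mem_erase.2 ⟨hi, Finset.mem_univ i⟩) hcon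
  have h := fun σ : Perm ι => integral_dbar (σ i0) (hcd σ) (hcs σ)
  rw [integral_congr_ae (Filter.Eventually.of_forall fun y =>
    (pointwise hF i0 hW y (fun h0 h1 => (hR y h0 h1).2)).symm)]
  rw [integral_finsetSum _ fun σ _ => (h σ).1.const_mul _]
  refine Finset.sum_eq_zero fun σ _ => ?_
  rw [integral_const_mul, (h σ).2, mul_zero]

end Pool.Agent.Work.MP_8d2b2d_co.CY
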