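import Pool.Agent.Work.MP_8d2b2d_co.CY.Sinc

/-!
# The angle bound
-/

set_option autoImplicit false
set_option linter.unusedSectionVars false
set_option linter.deprecated false

namespace Pool.Agent.Work.MP_8d2b2d_co.CY

open Real

lemma nonneg_of_deriv {f f' : ℝ → ℝ} (h : ∀ x, HasDerivAt f (f' x) x) (h0 : f 0 = 0)
    (hf : ∀ x, 0 ≤ x → 0 ≤ f' x) {x : ℝ} (hx : 0 ≤ x) : 0 ≤ f x := by
  have hm : MonotoneOn f (Set.Ici 0) := by
    refine monotoneOn_of_deriv_nonneg (convex_Ici 0)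
      (fun y _ => (h y).continuousAt.continuousWithinAt)
      (fun y _ => (h y).differentiableAt.differentiableWithinAt) ?_
    intro y hy
    rw [interior_Ici] at hy
    rw [(h y).deriv]
    exact hf y (le_of_lt hy)
  have := hm (Set.mem_Ici.2 le_rfl) (Set.mem_Ici.2 hx) hx
  rwa [h0] at this

lemma sin_lower {x : ℝ} (hx : 0 ≤ x) : x - x ^ 3 / 6 ≤ sin x := by
  have h : ∀ x, HasDerivAt (fun x => sin x - (x - x ^ 3 / 6)) (cos x - (1 - x ^ 2 / 2)) x := by
    intro x
    have h9 : HasDerivAt (fun x => sin x - (x - x ^ 3 / 6)) _ x :=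
      (hasDerivAt_sin x).sub ((hasDerivAt_id x).sub ((hasDerivAt_pow 3 x).div_const 6))
    refine h9.congr_deriv ?_
    norm_num
    ring
  have := nonneg_of_deriv h (by simp) (fun x _ => by linarith [one_sub_sq_div_two_le_cos (x := x)]) hx
  linarith

lemma cos_upper {x : ℝ} (hx : 0 ≤ x) : cos x ≤ 1 - x ^ 2 / 2 + x ^ 4 / 24 := by
  have h : ∀ x, HasDerivAt (fun x => 1 - x ^ 2 / 2 + x ^ 4 / 24 - cos x)
      (sin x - (x - x ^ 3 / 6)) x := by
    intro x
    have h9 : HasDerivAt (fun x => 1 - x ^ 2 / 2 + x ^ 4 / 24 - cos x) _ x :=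
      (((hasDerivAt_const x (1 : ℝ)).sub ((hasDerivAt_pow 2 x).div_const 2)).add
      ((hasDerivAt_pow 4 x).div_const 24)).sub (hasDerivAt_cos x)
    refine h9.congr_deriv ?_
    norm_num
    ring
  have := nonneg_of_deriv h (by simp) (fun x hx => by linarith [sin_lower hx]) hx
  linarith

lemma sin_upper {x : ℝ} (hx : 0 ≤ x) : sin x ≤ x - x ^ 3 / 6 + x ^ 5 / 120 := by
  have h : ∀ x, HasDerivAt (fun x => x - x ^ 3 / 6 + x ^ 5 / 120 - sin x)
      (1 - x ^ 2 / 2 + x ^ 4 / 24 - cos x) x := by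
    intro x
    have h9 : HasDerivAt (fun x => x - x ^ 3 / 6 + x ^ 5 / 120 - sin x) _ x :=
      (((hasDerivAt_id x).sub ((hasDerivAt_pow 3 x).div_const 6)).add
      ((hasDerivAt_pow 5 x).div_const 120)).sub (hasDerivAt_sin x)
    refine h9.congr_deriv ?_
    norm_num
    ring
  have := nonneg_of_deriv h (by simp) (fun x hx => by linarith [cos_upper hx]) hx
  linarith

/-- the bound `H(t) = t/3 - c t^3` -/
noncomputable def HH (t : ℝ) : ℝ := t / 3 - 49 / 2500 * t ^ 3

lemma HH_nonneg {t : ℝ} (h0 : 0 ≤ t) (h1 : t ≤ π) : 0 ≤ HH t := by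
  unfold HH
  have h2 : t ^ 2 ≤ 10 := by
    have := pi_lt_d2
    nlinarith
  nlinarith [mul_nonneg h0 (sub_nonneg.2 h2)]

lemma HH_le {t : ℝ} (h0 : 0 ≤ t) : HH t ≤ t / 3 := by
  unfold HH
  have : 0 ≤ t ^ 3 := by positivity
  linarith

/-- the differential inequality -/
lemma diff_ineq {t : ℝ} (h0 : 0 ≤ t) (h1 : t ≤ π) :
    (2 / 3 + 3 * (49 / 2500) * t ^ 2) * sin t ≤ 2 * sin (HH t) := by
  have hH := HH_nonneg h0 h1
  have h2 := sin_lower hH
  have h3 := sin_upper h0
  have hz : t ^ 2 ≤ 10 := by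
    have := pi_lt_d2
    nlinarith
  have h4 : (2 / 3 + 3 * (49 / 2500) * t ^ 2) * sin t ≤
      (2 / 3 + 3 * (49 / 2500) * t ^ 2) * (t - t ^ 3 / 6 + t ^ 5 / 120) :=
    mul_le_mul_of_nonneg_left h3 (by positivity)
  refine h4.trans (le_trans ?_ (mul_le_mul_of_nonneg_left h2 (by norm_num : (0 : ℝ) ≤ 2)))
  have key : 2 * (HH t - HH t ^ 3 / 6) -
      (2 / 3 + 3 * (49 / 2500) * t ^ 2) * (t - t ^ 3 / 6 + t ^ 5 / 120) =
      t ^ 3 * (2 * (1 / 18 - 1 / 162 - 49 / 1000) + t ^ 2 *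
        (2 * ((49 / 2500) / 18 + (49 / 2500) / 4 - 1 / 360) -
          2 * ((49 / 2500) ^ 2 / 6 + (49 / 2500) / 80) * t ^ 2 +
          2 * ((49 / 2500) ^ 3 / 6) * t ^ 4)) := by
    unfold HH
    ring
  have h5 : 0 ≤ 2 * ((49 / 2500) / 18 + (49 / 2500) / 4 - 1 / 360) -
          2 * ((49 / 2500) ^ 2 / 6 + (49 / 2500) / 80) * t ^ 2 +
          2 * ((49 / 2500) ^ 3 / 6) * t ^ 4 := by
    have : (0 : ℝ) ≤ t ^ 4 := by positivity
    nlinarith
  have h6 : 0 ≤ t ^ 3 * (2 * (1 / 18 - 1 / 162 - 49 / 1000) + t ^ 2 *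
        (2 * ((49 / 2500) / 18 + (49 / 2500) / 4 - 1 / 360) -
          2 * ((49 / 2500) ^ 2 / 6 + (49 / 2500) / 80) * t ^ 2 +
          2 * ((49 / 2500) ^ 3 / 6) * t ^ 4)) := by
    apply mul_nonneg (by positivity)
    apply add_nonneg (by norm_num)
    exact mul_nonneg (by positivity) h5
  linarith

/-- `a_-(t) = (t - H(t))/2` -/
noncomputable def am (t : ℝ) : ℝ := (t - HH t) / 2
/-- `a_+(t) = (t + H(t))/2` -/
noncomputable def ap (t : ℝ) : ℝ := (t + HH t) / 2

lemma hasDerivAt_HH (t : ℝ) : HasDerivAt HH (1 / 3 - 3 * (49 / 2500) * t ^ 2) t := by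
  have h9 : HasDerivAt (fun t => t / 3 - 49 / 2500 * t ^ 3) _ t :=
    ((hasDerivAt_id t).div_const 3).sub ((hasDerivAt_pow 3 t).const_mul (49 / 2500))
  refine h9.congr_deriv ?_
  norm_num
  ring

lemma hasDerivAt_am (t : ℝ) : HasDerivAt am ((1 - (1 / 3 - 3 * (49 / 2500) * t ^ 2)) / 2) t :=
  ((hasDerivAt_id t).sub (hasDerivAt_HH t)).div_const 2

lemma hasDerivAt_ap (t : ℝ) : HasDerivAt ap ((1 + (1 / 3 - 3 * (49 / 2500) * t ^ 2)) / 2) t :=
  ((hasDerivAt_id t).add (hasDerivAt_HH t)).div_const 2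

lemma am_nonneg {t : ℝ} (h0 : 0 ≤ t) : 0 ≤ am t := by
  unfold am
  linarith [HH_le h0]

lemma am_le {t : ℝ} (h0 : 0 ≤ t) (h1 : t ≤ π) : am t ≤ t / 2 := by
  unfold am
  linarith [HH_nonneg h0 h1]

lemma ap_nonneg {t : ℝ} (h0 : 0 ≤ t) (h1 : t ≤ π) : 0 ≤ ap t := by
  unfold ap
  linarith [HH_nonneg h0 h1]

lemma ap_mono {s t : ℝ} (h0 : 0 ≤ s) (hst : s ≤ t) (h1 : t ≤ π) : ap s ≤ ap t := by
  unfold ap HH
  have ht : t ^ 2 ≤ 10 := by
    have := pi_lt_d2
    nlinarith
  have h2 : t ^ 3 - s ^ 3 ≤ 30 * (t - s) := by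
    have h3 : t ^ 3 - s ^ 3 = (t - s) * (t ^ 2 + t * s + s ^ 2) := by ring
    rw [h3]
    have h4 : t ^ 2 + t * s + s ^ 2 ≤ 30 := by nlinarith
    nlinarith [mul_le_mul_of_nonneg_left h4 (sub_nonneg.2 hst)]
  nlinarith

/-- the main trigonometric inequality -/
theorem main_trig {t : ℝ} (h0 : 0 ≤ t) (h1 : t < π) :
    t * cos (ap t) ≤ sin t * cos (am t) := by
  have hsin : 0 ≤ sin t := sin_nonneg_of_nonneg_of_le_pi h0 h1.le
  have hcm : 0 ≤ cos (am t) := by
    apply cos_nonneg_of_mem_Icc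
    constructor
    · linarith [am_nonneg h0, pi_pos]
    · linarith [am_le h0 h1.le]
  rcases le_or_gt (π / 2) (ap t) with hap | hap
  · have : cos (ap t) ≤ 0 := by
      apply cos_nonpos_of_pi_div_two_le_of_le hap
      unfold ap
      linarith [HH_le h0]
    nlinarith [mul_nonneg hsin hcm]
  · -- monotonicity of the quotient
    have hcp : ∀ s, 0 ≤ s → s ≤ t → 0 < cos (ap s) := by
      intro s hs0 hst
      apply cos_pos_of_mem_Ioo
      constructor
      · linarith [ap_nonneg hs0 (hst.trans h1.le), pi_pos]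
      · exact (ap_mono hs0 hst h1.le).trans_lt hap
    set g : ℝ → ℝ := fun s => sin s * cos (am s) / cos (ap s) - s with hg
    have hder : ∀ s, 0 ≤ s → s ≤ t → HasDerivAt g
        (sin s * (2 * sin (HH s) - (2 / 3 + 3 * (49 / 2500) * s ^ 2) * sin s) /
          (2 * cos (ap s) ^ 2)) s := by
      intro s hs0 hst
      have hc := hcp s hs0 hst
      have d1 := ((hasDerivAt_sin s).mul ((hasDerivAt_am s).cos)).div ((hasDerivAt_ap s).cos) hc.ne'
      have d2 : HasDerivAt g _ s := d1.sub (hasDerivAt_id s)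
      have e1 : s = ap s + am s := by unfold ap am; ring
      have e2 : HH s = ap s - am s := by unfold ap am; ring
      refine d2.congr_deriv ?_
      have s1 : sin s = sin (ap s) * cos (am s) + cos (ap s) * sin (am s) := by
        conv_lhs => rw [e1]
        rw [sin_add]
      have c1 : cos s = cos (ap s) * cos (am s) - sin (ap s) * sin (am s) := by
        conv_lhs => rw [e1]
        rw [cos_add]
      have s2 : sin (HH s) = sin (ap s) * cos (am s) - cos (ap s) * sin (am s) := by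
        rw [e2, sin_sub]
      have e3 : (sin * fun x => cos (am x)) s = sin s * cos (am s) := rfl
      rw [e3, s2, s1, c1]
      have p1 := sin_sq_add_cos_sq (ap s)
      have p2 := sin_sq_add_cos_sq (am s)
      have hB : cos (ap s) ≠ 0 := hc.ne'
      generalize sin (ap s) = A at *
      generalize cos (ap s) = B at *
      generalize sin (am s) = C at *
      generalize cos (am s) = E at *
      generalize 3 * (49 / 2500) * s ^ 2 = k at *
      have hB2 : B ^ 2 ≠ 0 := pow_ne_zero 2 hB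
      rw [div_sub_one hB2, div_eq_div_iff hB2 (mul_ne_zero two_ne_zero hB2)]
      linear_combination (2 * B ^ 4) * p2
    have hmono : MonotoneOn g (Set.Icc 0 t) := by
      refine monotoneOn_of_deriv_nonneg (convex_Icc 0 t)
        (fun s hs => (hder s hs.1 hs.2).continuousAt.continuousWithinAt)
        (fun s hs => ?_) ?_
      · rw [interior_Icc] at hs
        exact (hder s hs.1.le hs.2.le).differentiableAt.differentiableWithinAt
      · intro s hs
        rw [interior_Icc] at hs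
        rw [(hder s hs.1.le hs.2.le).deriv]
        have h2 := diff_ineq hs.1.le (hs.2.le.trans h1.le)
        have h3 : 0 ≤ sin s := sin_nonneg_of_nonneg_of_le_pi hs.1.le (hs.2.le.trans h1.le)
        have h4 := hcp s hs.1.le hs.2.le
        apply div_nonneg
        · exact mul_nonneg h3 (by linarith)
        · positivity
    have h5 := hmono (Set.left_mem_Icc.2 h0) (Set.right_mem_Icc.2 h0) h0
    have h6 : g 0 = 0 := by simp [hg]
    rw [h6] at h5
    have h7 : t ≤ sin t * cos (am t) / cos (ap t) := by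
      have : g t = sin t * cos (am t) / cos (ap t) - t := rfl
      linarith
    rwa [le_div_iff₀ (hcp t h0 le_rfl)] at h7

/-- the logarithmic derivative `L(t) = 1/t - cot t = - sinc'/sinc` -/
noncomputable def LL (t : ℝ) : ℝ := - (deriv sinc t / sinc t)

lemma LL_of_pos {t : ℝ} (h0 : 0 < t) (h1 : t < π) :
    LL t = (sin t - t * cos t) / (t * sin t) := by
  have hs : 0 < sin t := sin_pos_of_pos_of_lt_pi h0 h1
  rw [LL, deriv_sinc_of_ne h0.ne', sinc_of_ne_zero h0.ne']
  field_simp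
  ring

lemma LL_nonneg {t : ℝ} (h0 : 0 < t) (h1 : t < π) : 0 ≤ LL t := by
  rw [LL_of_pos h0 h1]
  have hs : 0 < sin t := sin_pos_of_pos_of_lt_pi h0 h1
  exact div_nonneg (by linarith [mul_cos_le_sin h0.le h1.le]) (mul_pos h0 hs).le

/-- lower bound for `L` -/
lemma LL_lower {t : ℝ} (h0 : 0 < t) (h1 : t < π) : sin (am t) ≤ LL t * cos (am t) := by
  have hs : 0 < sin t := sin_pos_of_pos_of_lt_pi h0 h1
  rw [LL_of_pos h0 h1, div_mul_eq_mul_div, le_div_iff₀ (mul_pos h0 hs)]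
  have h2 := main_trig h0.le h1
  have e1 : ap t = t - am t := by unfold ap am; ring
  rw [e1, cos_sub] at h2
  nlinarith

/-- upper bound for `L` -/
lemma LL_upper {t : ℝ} (h0 : 0 < t) (h1 : t < π) : LL t * cos (t / 2) ≤ sin (t / 2) := by
  have hs : 0 < sin t := sin_pos_of_pos_of_lt_pi h0 h1
  rw [LL_of_pos h0 h1, div_mul_eq_mul_div, div_le_iff₀ (mul_pos h0 hs)]
  have e1 : sin t = 2 * sin (t / 2) * cos (t / 2) := by
    rw [← sin_two_mul]; congr 1; ring
  have e2 : cos t = 2 * cos (t / 2) ^ 2 - 1 := by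
    rw [← cos_two_mul]; congr 1; ring
  have hc : 0 < cos (t / 2) := cos_pos_of_mem_Ioo ⟨by linarith [pi_pos], by linarith⟩
  have h2 : sin t ≤ t := sin_le h0.le
  have key : sin (t / 2) * (t * sin t) - (sin t - t * cos t) * cos (t / 2) =
      cos (t / 2) * (t - sin t) := by
    rw [e1, e2]
    linear_combination (2 * t * cos (t / 2)) * sin_sq_add_cos_sq (t / 2)
  nlinarith [mul_nonneg hc.le (sub_nonneg.2 h2)]

/-- `t cot t ≤ (π/2)(π/2 - t)` -/
lemma cot_bound {t : ℝ} (h0 : 0 ≤ t) (h1 : t < π) :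
    t * cos t ≤ π / 2 * (π / 2 - t) * sin t := by
  have hpi := pi_pos
  rcases le_or_gt t (π / 2) with h | h
  · have h2 : cos t ≤ π / 2 - t := by
      rw [← sin_pi_div_two_sub]
      exact sin_le (by linarith)
    have h3 : 2 / π * t ≤ sin t := mul_le_sin h0 h
    have h4 : t * cos t ≤ t * (π / 2 - t) := mul_le_mul_of_nonneg_left h2 h0
    have h5 : π / 2 * (π / 2 - t) * (2 / π * t) ≤ π / 2 * (π / 2 - t) * sin t :=
      mul_le_mul_of_nonneg_left h3 (mul_nonneg (by positivity) (by linarith))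
    have h6 : π / 2 * (π / 2 - t) * (2 / π * t) = t * (π / 2 - t) := by
      field_simp
    linarith
  · set r := t - π / 2 with hr
    have e1 : t = π / 2 + r := by rw [hr]; ring
    have hr0 : 0 < r := by rw [hr]; linarith
    have hr1 : r < π / 2 := by rw [hr]; linarith
    have e2 : cos t = - sin r := by rw [e1, add_comm, cos_add_pi_div_two]
    have e3 : sin t = cos r := by rw [e1, add_comm, sin_add_pi_div_two]
    have h2 := mul_cos_le_sin hr0.le (by linarith)
    have h3 : 0 < sin r := sin_pos_of_pos_of_lt_pi hr0 (by linarith)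
    rw [e2, e3, e1]
    nlinarith [mul_pos hr0 h3, mul_le_mul_of_nonneg_left h2 (by positivity : 0 ≤ π / 2)]

/-- tangent line bound for `H` -/
lemma HH_tangent {t : ℝ} (h0 : 0 ≤ t) :
    HH t ≤ HH (π / 2) + (1 / 3 - 3 * (49 / 2500) * (π / 2) ^ 2) * (t - π / 2) := by
  have key : HH (π / 2) + (1 / 3 - 3 * (49 / 2500) * (π / 2) ^ 2) * (t - π / 2) - HH t =
      49 / 2500 * ((t - π / 2) ^ 2 * (t + π)) := by
    unfold HH
    ring
  have : 0 ≤ 49 / 2500 * ((t - π / 2) ^ 2 * (t + π)) := by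
    have := pi_pos
    positivity
  linarith

lemma HH_pi : 7 * HH (π / 2) < π := by
  unfold HH
  have h1 := pi_gt_d2
  have h2 : (9.85 : ℝ) < π ^ 2 := by nlinarith
  have h3 : 7 * (π / 2 / 3 - 49 / 2500 * (π / 2) ^ 3) = π * (7 / 6 - 7 * 49 / 20000 * π ^ 2) := by
    ring
  rw [h3]
  have h4 : 7 / 6 - 7 * 49 / 20000 * π ^ 2 < 1 := by nlinarith
  nlinarith [pi_pos]

lemma slope_pos : 0 < 1 / 3 - 3 * (49 / 2500) * (π / 2) ^ 2 := by
  have h1 := pi_lt_d2
  have h2 := pi_pos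
  nlinarith

end Pool.Agent.Work.MP_8d2b2d_co.CY
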